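import Pool.Agent.H.MP_fc2485_gt.Sv9.Defs9
import Pool.Agent.H.MP_fc2485_gt.Sv9.Gen9
import Pool.Agent.H.MP_fc2485_gt.Sv.Cell

/-!
A boundary arc on which everything is generic (`m = 9`).

The function `E0 · w · det (Z, Y0, F, ..., F⁽⁶⁾)` is `Nice` on the rectangle (`Props_niceY`,
`Props_niceE`, `nice_Fv`) and not zero at an interior point (`F7B_wron`, `exists_generic9` with
`spanning`, as in `coprop_ne8`; `iteratedDeriv j (Fv c.φ e 0) z = Fv c.φ e j z` in the interior), so it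
is not zero at some point of the bottom side (`uniq_bottom`, `c.c = 0`); by continuity it is not zero
on an arc in the interior of the bottom side.
-/

set_option maxSynthPendingDepth 3

open Set Filter Topology InnerProductSpace
open scoped ContDiff

namespace Stek.Sv

open Stek Surface GCell

variable {S : Type*} [TopologicalSpace S] {M : Surface S} {σ : ℝ} {m : ℕ} {e : Fin m → S → ℝ}
  {G : Bl m}

private theorem arc9_det {n : ℕ} {K O : Set ℂ} {f : Fin n → ℂ → V n}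
    (hf : ∀ i, Nice K O (f i)) :
    Nice K O (fun z => Matrix.det (fun i j => f i z j : Matrix (Fin n) (Fin n) ℂ)) := by
  constructor
  · have h1 : Continuous fun A : Matrix (Fin n) (Fin n) ℂ => A.det := continuous_id.matrix_det
    exact h1.comp_continuousOn (continuousOn_pi.2 fun i => (hf i).cont)
  · simp only [Matrix.det_apply]
    refine DifferentiableOn.fun_sum fun σ _ => ?_
    refine DifferentiableOn.const_smul ?_ (Equiv.Perm.sign σ)
    exact DifferentiableOn.fun_finsetProd fun i _ => differentiableOn_pi.1 (hf (σ i)).holo i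

private theorem arc9_iter (H : Ctx M σ e G) (c : GCell M e G) :
    ∀ (j : ℕ) (z : ℂ), z ∈ c.O → iteratedDeriv j (Fv c.φ e 0) z = Fv c.φ e j z := by
  intro j
  induction j with
  | zero => intro z _; rw [iteratedDeriv_zero]
  | succ j ih =>
    intro z hz
    rw [iteratedDeriv_succ]
    have h1 : iteratedDeriv j (Fv c.φ e 0) =ᶠ[𝓝 z] Fv c.φ e j := by
      filter_upwards [(isOpen_RectI c.a c.b c.c c.d).mem_nhds hz] with w hw
      exact ih w hw
    rw [h1.deriv_eq]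
    exact (hasDerivAt_Fv H.mem c.hφ j (c.sub (RectI_sub _ _ _ _ hz)) (c.im_pos hz)).deriv

private theorem arc9_niceB (H : Ctx M σ e G) {c c' : GCell M e G} (hs : Same c c') (i : Fin 9) :
    Nice (Rect c.a c.b c.c c.d) (RectI c.a c.b c.c c.d) (fun z => vecB c c' z i) := by
  have hY' : Nice (Rect c.a c.b c.c c.d) (RectI c.a c.b c.c c.d) c'.Y := by
    have := Props_niceY c'
    rwa [← hs.ea, ← hs.eb, ← hs.ec, ← hs.ed] at this
  have hE' : Nice (Rect c.a c.b c.c c.d) (RectI c.a c.b c.c c.d) c'.E := by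
    have := Props_niceE c'
    rwa [← hs.ea, ← hs.eb, ← hs.ec, ← hs.ed] at this
  refine Fin.cases ?_ (fun i => Fin.cases ?_ (fun j => ?_) i) i
  · exact (hE'.smul (Props_niceY c)).sub ((Props_niceE c).smul hY')
  · exact hY'
  · exact nice_Fv H.mem c.hφ j c.sub

private theorem arc9_wr (H : Ctx M σ e G) {c c' : GCell M e G} (hs : Same c c') :
    Nice (Rect c.a c.b c.c c.d) (RectI c.a c.b c.c c.d) (fun z => wr c c' z) := by
  have hY' : Nice (Rect c.a c.b c.c c.d) (RectI c.a c.b c.c c.d) c'.Y := by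
    have := Props_niceY c'
    rwa [← hs.ea, ← hs.eb, ← hs.ec, ← hs.ed] at this
  have hE' : Nice (Rect c.a c.b c.c c.d) (RectI c.a c.b c.c c.d) c'.E := by
    have := Props_niceE c'
    rwa [← hs.ea, ← hs.eb, ← hs.ec, ← hs.ed] at this
  exact (hE'.smul ((Props_niceY c).bil G (Props_niceF H c))).sub
    ((Props_niceE c).smul (hY'.bil G (Props_niceF H c)))

/-- a nonzero function is not zero on an arc -/
private theorem arc9_arc {a b c d : ℝ} (hab : a < b) (hcd : c < d) (hc0 : c = 0) {h : ℂ → ℂ}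
    (hh : Nice (Rect a b c d) (RectI a b c d) h) {z1 : ℂ} (hz1 : z1 ∈ Rect a b c d)
    (h1 : h z1 ≠ 0) : ∃ a' b' : ℝ, a' < b' ∧ Icc a' b' ⊆ Ioo a b ∧
      ∀ t ∈ Ioo a' b', h (t : ℂ) ≠ 0 := by
  have hex : ∃ z ∈ {z | z ∈ Rect a b c d ∧ z.im = c}, h z ≠ 0 := by
    by_contra hcon
    push Not at hcon
    exact h1 ((uniq_bottom hab hcd).2 h hh hcon z1 hz1)
  obtain ⟨z, hz, hz0⟩ := hex
  have hmem : ∀ t ∈ Icc a b, (t : ℂ) ∈ Rect a b c d := by
    intro t ht
    refine ⟨by simpa using ht.1, by simpa using ht.2, ?_, ?_⟩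
    · simp [hc0]
    · rw [hc0] at hcd
      simpa using hcd.le
  have hzr : ((z.re : ℝ) : ℂ) = z := by
    apply Complex.ext
    · simp
    · have := hz.2
      rw [hc0] at this
      simpa using this.symm
  have hx0 : z.re ∈ Icc a b := ⟨hz.1.1, hz.1.2.1⟩
  have hcont : ContinuousOn (fun t : ℝ => h (t : ℂ)) (Icc a b) :=
    hh.cont.comp Complex.continuous_ofReal.continuousOn hmem
  have hev : ∀ᶠ t : ℝ in 𝓝[Icc a b] z.re, h (t : ℂ) ≠ 0 := by
    have h2 : ContinuousWithinAt (fun t : ℝ => h (t : ℂ)) (Icc a b) z.re := hcont z.re hx0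
    have h3 : (fun t : ℝ => h (t : ℂ)) z.re ≠ 0 := by
      show h ((z.re : ℝ) : ℂ) ≠ 0
      rw [hzr]
      exact hz0
    exact h2.eventually_ne h3
  rw [eventually_nhdsWithin_iff, Metric.eventually_nhds_iff] at hev
  obtain ⟨ε, hε, hb⟩ := hev
  obtain ⟨t0, ht0, hd⟩ : ∃ t0 ∈ Ioo a b, dist t0 z.re < ε := by
    have h3 : z.re ∈ closure (Ioo a b) := by
      rw [closure_Ioo hab.ne]
      exact hx0
    obtain ⟨t0, h4, h5⟩ := Metric.mem_closure_iff.1 h3 ε hε
    exact ⟨t0, h4, by rwa [dist_comm]⟩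
  obtain ⟨δ, hδ, hδ1, hδ2, hδ3⟩ : ∃ δ > 0, δ < ε - dist t0 z.re ∧ δ < t0 - a ∧ δ < b - t0 := by
    have h6 : 0 < min (ε - dist t0 z.re) (min (t0 - a) (b - t0)) :=
      lt_min (by linarith) (lt_min (by linarith [ht0.1]) (by linarith [ht0.2]))
    have h7 := min_le_left (ε - dist t0 z.re) (min (t0 - a) (b - t0))
    have h8 := min_le_right (ε - dist t0 z.re) (min (t0 - a) (b - t0))
    have h9 := min_le_left (t0 - a) (b - t0)
    have h10 := min_le_right (t0 - a) (b - t0)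
    exact ⟨min (ε - dist t0 z.re) (min (t0 - a) (b - t0)) / 2, by linarith, by linarith,
      by linarith, by linarith⟩
  refine ⟨t0 - δ, t0 + δ, by linarith, fun t ht => ⟨by linarith [ht.1], by linarith [ht.2]⟩,
    fun t ht => ?_⟩
  refine hb ?_ ⟨by linarith [ht.1], by linarith [ht.2]⟩
  have h11 : dist t t0 < δ := by
    rw [Real.dist_eq, abs_lt]
    constructor <;> linarith [ht.1, ht.2]
  calc dist t z.re ≤ dist t t0 + dist t0 z.re := dist_triangle _ _ _
    _ < ε := by linarith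

theorem exists_arc [ConnectedSpace S] (H : Ctx M σ e G) (hm : m = 9)
    (hnd : ∀ (D : V m) (φ : Chart S), φ ∈ M.charts → ∀ z ∈ φ.map.target, 0 < z.im →
      (∀ᶠ w in 𝓝 z, ∀ Q, InK M e Q → Q D (Fv φ e 0 w) = 0) → D = 0)
    {C C' : Set S} (hC : IsCC M C) (hC' : IsCC M C') {c c' : GCell M e G}
    (hc : c.IsBase C) (hc' : Reach C' c') (hs : Same c c') (hno : ∀ z ∈ c.K, NoProp c c' z) :
    ∃ a b : ℝ, a < b ∧ Icc a b ⊆ Ioo c.a c.b ∧ ∀ t ∈ Ioo a b, c'.E (t : ℂ) ≠ 0 ∧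
      wr c c' (t : ℂ) ≠ 0 ∧ LinearIndependent ℂ (vecB c c' (t : ℂ)) := by
  subst hm
  have hrc : Reach C c := Reach.base hc
  obtain ⟨z, hz⟩ := c.O_nonempty
  obtain ⟨r, hr, hO⟩ := Metric.mem_nhds_iff.mp ((isOpen_RectI c.a c.b c.c c.d).mem_nhds hz)
  have hO' : Metric.ball z r ⊆ c'.O := by
    rw [← hs.O]
    exact hO
  have hφ := hs.eφ
  obtain ⟨s0, hs0, hw⟩ := F7B_wron H (by norm_num) hnd hC.sub hC'.sub hrc hc' hφ hr hO hO'
    (hno z (RectI_sub _ _ _ _ hz))
  have dE2 : ∀ s ∈ Metric.ball z r, HasDerivAt c'.E (G (c'.Y s) (Fv c.φ e 0 s)) s :=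
    fun s hs => by
      rw [hφ]
      exact c'.dEat (hO' hs)
  have dY2 : ∀ s ∈ Metric.ball z r, HasDerivAt c'.Y (c'.E s • Fv c.φ e 0 s) s := fun s hs => by
    rw [hφ]
    exact c'.dYat (hO' hs)
  have dE1 : ∀ s ∈ Metric.ball z r, HasDerivAt c.E (G (c.Y s) (Fv c.φ e 0 s)) s :=
    fun s hs => c.dEat (hO hs)
  have dY1 : ∀ s ∈ Metric.ball z r, HasDerivAt c.Y (c.E s • Fv c.φ e 0 s) s :=
    fun s hs => c.dYat (hO hs)
  have hF : DifferentiableOn ℂ (Fv c.φ e 0) (Metric.ball z r) :=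
    (Props_niceF H c).holo.mono hO
  obtain ⟨s1, hs1, hE0, -, hw1, hli⟩ := exists_generic9 rfl hr hF
    (fun s hs => (dE2 s hs).differentiableAt.differentiableWithinAt)
    (fun s hs => (dE1 s hs).differentiableAt.differentiableWithinAt) dY2 dY1
    ⟨s0, hs0, by rwa [(dE1 s0 hs0).deriv, (dE2 s0 hs0).deriv]⟩
    (fun s2 r2 hr2 hb2 ξ hξ => spanning H hC'.sub hc' hr2 (hb2.trans hO') ξ hξ)
  have hv : vec9 s1 (Fv c.φ e 0) c'.Y c.Y c'.E c.E = vecB c c' s1 := by
    unfold vec9 vecB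
    congr 2
    funext j
    exact arc9_iter H c j s1 (hO hs1)
  rw [hv] at hli
  have hwr : wr c c' s1 ≠ 0 := by
    rw [(dE1 s1 hs1).deriv, (dE2 s1 hs1).deriv] at hw1
    exact hw1
  have hE' : Nice (Rect c.a c.b c.c c.d) (RectI c.a c.b c.c c.d) c'.E := by
    have := Props_niceE c'
    rwa [← hs.ea, ← hs.eb, ← hs.ec, ← hs.ed] at this
  have hdet : Matrix.det (fun i j => vecB c c' s1 i j : Matrix (Fin 9) (Fin 9) ℂ) ≠ 0 := by
    have h1 := (Matrix.linearIndependent_rows_iff_isUnit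
      (A := (fun i j => vecB c c' s1 i j : Matrix (Fin 9) (Fin 9) ℂ))).1 hli
    exact ((Matrix.isUnit_iff_isUnit_det _).1 h1).ne_zero
  have hN : Nice (Rect c.a c.b c.c c.d) (RectI c.a c.b c.c c.d) (fun z => c'.E z •
      (wr c c' z • Matrix.det (fun i j => vecB c c' z i j : Matrix (Fin 9) (Fin 9) ℂ))) :=
    hE'.smul ((arc9_wr H hs).smul (arc9_det fun i => arc9_niceB H hs i))
  obtain ⟨a, b, hab, hsub, hne⟩ := arc9_arc c.hab c.hcd hc.1 hN (RectI_sub _ _ _ _ (hO hs1))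
    (smul_ne_zero hE0 (smul_ne_zero hwr hdet))
  refine ⟨a, b, hab, hsub, fun t ht => ?_⟩
  have h2 := hne t ht
  refine ⟨fun h => h2 (by rw [h, zero_smul]), fun h => h2 (by rw [h, zero_smul, smul_zero]), ?_⟩
  have h3 : Matrix.det (fun i j => vecB c c' (t : ℂ) i j : Matrix (Fin 9) (Fin 9) ℂ) ≠ 0 :=
    fun h => h2 (by rw [h, smul_zero, smul_zero])
  exact Matrix.linearIndependent_rows_of_det_ne_zero h3

end Stek.Sv
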