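import Pool.Agent.H.MP_fc2485_gt.Sv9.Defs9
import Pool.Agent.H.MP_fc2485_gt.Sv.Cell
import Pool.Agent.H.MP_fc2485_gt.Sv.Link

/-!
Two reachable solutions which are not proportional somewhere are not proportional over a boundary arc.

Induction on `Reach C c` for the statement: for every `c'` with `Reach C' c'` and `¬ CoProp c c'` the
conclusion holds. First replace `c'` by a cell over the rectangle of `c` in the same chart (`c.φ = c'.φ`,
`z ∈ c.O ∩ c'.O`; solve on `c.K` with the value of `c'` at `z`: `ode_exists'` of OdeA has no smallness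
condition; it is linked to `c'` at the point of the surface, see the end of the proof of `reach_at`).
The solutions are not proportional at any point of `c.K` (`ode_unique` for the difference, `IsSol.smul`,
`IsSol.sub`). Base case: done. Step `c1 → c` (link at `x`): not proportional at `c.φ.map x`; continue
`c'` back to the chart of `c1` (a cell around `c1.φ.map x` with the value of `c'` at `c.φ.map x`:
`exists_rect`; the link is `link_symm` of `c1.LinkAt c x` with the solutions replaced), so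
`¬ CoProp c1 c1'`, and the induction hypothesis applies.
-/

set_option maxSynthPendingDepth 3

open Set Filter Topology InnerProductSpace
open scoped ContDiff

namespace Stek.Sv

open Stek Surface GCell

variable {S : Type*} [TopologicalSpace S] {M : Surface S} {σ : ℝ} {m : ℕ} {e : Fin m → S → ℝ}
  {G : Bl m}

private theorem base9_prop (H : Ctx M σ e G) {c c' : GCell M e G} (hs : Same c c') {z : ℂ}
    (hz : z ∈ c.K) (hno : NoProp c c' z) : ∀ w ∈ c.K, NoProp c c' w := by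
  rintro w hw ⟨t, ht, h1, h2⟩
  apply hno
  have hsol' : IsSol G (Fv c.φ e 0) c.K c'.Y c'.E := by
    have := c'.sol
    rw [hs.eφ, hs.K]
    exact this
  have h3 := ode_unique (convex_Rect c.a c.b c.c c.d) (nice_Fv H.mem c.hφ 0 c.sub).cont
    c.sol (hsol'.smul t) hw h1 h2 z hz
  exact ⟨t, ht, h3.1, h3.2⟩

private theorem base9_same (H : Ctx M σ e G) {C' : Set S} {c c' : GCell M e G}
    (hc' : Reach C' c') (hφ : c.φ = c'.φ) {z : ℂ} (hz : z ∈ c.O) (hz' : z ∈ c'.O) :
    ∃ c2 : GCell M e G, Reach C' c2 ∧ Same c c2 ∧ c2.Y z = c'.Y z ∧ c2.E z = c'.E z := by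
  obtain ⟨Y, E, hsol, hY, hE⟩ := ode_exists' G (nice_Fv H.mem c.hφ 0 c.sub)
    (RectI_sub _ _ _ _ hz) (c'.Y z) (c'.E z)
  have hzt : z ∈ c.φ.map.target := c.sub (RectI_sub _ _ _ _ hz)
  have hr : c.φ.map (c.φ.map.symm z) = z := c.φ.map.right_inv hzt
  have hr' : c'.φ.map (c.φ.map.symm z) = z := by rw [← hφ]; exact hr
  refine ⟨⟨c.φ, c.hφ, c.a, c.b, c.c, c.d, c.hab, c.hcd, c.sub, Y, E, hsol⟩,
    Reach.step (x := c.φ.map.symm z) hc' ⟨?_, ?_, ?_, ?_, ?_, ?_, ?_⟩,
    ⟨rfl, rfl, rfl, rfl, rfl⟩, hY, hE⟩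
  · rw [← hφ]
    exact c.φ.map.map_target hzt
  · exact c.φ.map.map_target hzt
  · rw [hr']
    exact hz'
  · show c.φ.map (c.φ.map.symm z) ∈ c.O
    rw [hr]
    exact hz
  · show c'.Y (c'.φ.map (c.φ.map.symm z)) = Y (c.φ.map (c.φ.map.symm z))
    rw [hr, hr', hY]
  · show c'.E (c'.φ.map (c.φ.map.symm z)) = E (c.φ.map (c.φ.map.symm z))
    rw [hr, hr', hE]
  · rw [hr', ← hφ]
    have hn : c.φ.map.target ∈ 𝓝 z := dom_nhds c.φ hzt (c.im_pos hz)
    filter_upwards [eventually_eventually_nhds.2 hn] with w hw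
    have : (fun w => c.φ.map (c.φ.map.symm w)) =ᶠ[𝓝 w] id := by
      filter_upwards [hw] with v hv
      exact c.φ.map.right_inv hv
    exact this.symm.differentiableAt_iff.1 differentiableAt_id

private theorem base9_start (H : Ctx M σ e G) {C' : Set S} {c c' : GCell M e G}
    (hc' : Reach C' c') (hno : ¬ CoProp c c') :
    ∃ c2 : GCell M e G, Reach C' c2 ∧ Same c c2 ∧ ∀ w ∈ c.K, NoProp c c2 w := by
  unfold CoProp at hno
  push Not at hno
  obtain ⟨hφ, z, hz, hz', hno⟩ := hno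
  obtain ⟨c2, h1, h2, h3, h4⟩ := base9_same H hc' hφ hz hz'
  refine ⟨c2, h1, h2, base9_prop H h2 (RectI_sub _ _ _ _ hz) ?_⟩
  rintro ⟨t, ht, h5, h6⟩
  rw [h3] at h5
  rw [h4] at h6
  exact hno t ht h5 h6

theorem exists_base_pair [ConnectedSpace S] (H : Ctx M σ e G) {C C' : Set S} {c c' : GCell M e G}
    (hc : Reach C c) (hc' : Reach C' c') (hno : ¬ CoProp c c') :
    ∃ c0 c0' : GCell M e G, c0.IsBase C ∧ Reach C' c0' ∧ Same c0 c0' ∧
      ∀ z ∈ c0.K, NoProp c0 c0' z := by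
  induction hc generalizing c' with
  | base hb =>
    obtain ⟨c2, h1, h2, h3⟩ := base9_start H hc' hno
    exact ⟨_, c2, hb, h1, h2, h3⟩
  | @step c1 c x hc1 hl ih =>
    obtain ⟨c2, h1, h2, h3⟩ := base9_start H hc' hno
    obtain ⟨l1, l2, l3, l4, l5, l6, l7⟩ := hl
    obtain ⟨-, -, -, -, -, -, k7⟩ := link_symm H (c := c1) (c' := c) (x := x)
      ⟨l1, l2, l3, l4, l5, l6, l7⟩
    obtain ⟨Y, E, hsol, hY, hE⟩ := ode_exists' G (nice_Fv H.mem c1.hφ 0 c1.sub)
      (RectI_sub _ _ _ _ l3) (c2.Y (c.φ.map x)) (c2.E (c.φ.map x))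
    obtain ⟨c3, hc3⟩ : ∃ c3 : GCell M e G, c3 =
      ⟨c1.φ, c1.hφ, c1.a, c1.b, c1.c, c1.d, c1.hab, c1.hcd, c1.sub, Y, E, hsol⟩ := ⟨_, rfl⟩
    have hr : Reach C' c3 := by
      refine Reach.step (x := x) h1 ⟨?_, ?_, ?_, ?_, ?_, ?_, ?_⟩
      · rw [← h2.eφ]
        exact l2
      · rw [hc3]
        exact l1
      · rw [← h2.eφ, ← h2.O]
        exact l4
      · rw [hc3]
        exact l3
      · rw [← h2.eφ, hc3]
        exact hY.symm
      · rw [← h2.eφ, hc3]
        exact hE.symm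
      · rw [← h2.eφ, hc3]
        exact k7
    refine ih hr fun hco => ?_
    obtain ⟨t, ht, e1, e2⟩ := hco (by rw [hc3]) (c1.φ.map x) l3 (by rw [hc3]; exact l3)
    refine h3 (c.φ.map x) (RectI_sub _ _ _ _ l4) ⟨t, ht, ?_, ?_⟩
    · rw [← l5, e1, hc3]
      show t • Y (c1.φ.map x) = _
      rw [hY]
    · rw [← l6, e2, hc3]
      show t * E (c1.φ.map x) = _
      rw [hE]

end Stek.Sv
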