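import Pool.Agent.H.MP_fc2485_gt.Sv9.Jet9

/-!
The conjugates of the derivatives of the gradient.
-/

set_option maxSynthPendingDepth 3

open Set Filter Topology InnerProductSpace Finset
open scoped ContDiff

namespace Stek.Sv

open Stek Surface GCell

variable {S : Type*} [TopologicalSpace S] {M : Surface S} {σ : ℝ} {m : ℕ} {e : Fin m → S → ℝ}
  {G : Bl m}

/-- `star f_n` is in the span of `Y1(t), f_0, ..., f_n`: on the arc
`E1² star F = E1² F - 2 G(Y1,F) Y1` (`u = Y1/E1` is real, `u' = F - iλu`, `G(u,F) = iλ`); take the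
jets of both sides and use induction on `n`. -/
theorem star_f_mem {I : Set ℝ} (hI : IsOpen I) {f y : ℕ → ℝ → V m} {ε : ℕ → ℝ → ℂ} (hf : IsJet I f)
    (hy : IsJet I y) (hε : IsJet I ε)
    (hyr : ∀ n t, y (n + 1) t = (1 / ((n : ℂ) + 1)) • ∑ p ∈ antidiagonal n, ε p.1 t • f p.2 t)
    (h0 : ∀ t ∈ I, ε 0 t ≠ 0)
    (hst : ∀ t ∈ I, (ε 0 t * ε 0 t) • star (f 0 t) =
      (ε 0 t * ε 0 t) • f 0 t - (2 * G (y 0 t) (f 0 t)) • y 0 t) {t : ℝ} (ht : t ∈ I) (n : ℕ) :
    star (f n t) ∈ Submodule.span ℂ ({y 0 t} ∪ {x | ∃ i ≤ n, x = f i t}) := by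
  have hB := jet_smul hε hε
  have hC := jet_const_smul (2 : ℂ) (jet_bil G hy hf)
  have hD := jet_sub (jet_smul hB (jet_star hf)) (jet_sub (jet_smul hB hf) (jet_smul hC hy))
  have hz := jet_zero hI hD (by
    intro t ht
    have h1 := hst t ht
    simp only [Finset.Nat.antidiagonal_zero, sum_singleton, smul_eq_mul]
    rw [h1]
    exact sub_self _)
  have hB0 : ∑ p ∈ antidiagonal 0, ε p.1 t • ε p.2 t ≠ 0 := by
    simp only [Finset.Nat.antidiagonal_zero, sum_singleton, smul_eq_mul]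
    exact mul_ne_zero (h0 t ht) (h0 t ht)
  induction n using Nat.strong_induction_on with
  | _ n ih =>
    set W := Submodule.span ℂ ({y 0 t} ∪ {x | ∃ i ≤ n, x = f i t}) with hW
    have hf' : ∀ i ≤ n, f i t ∈ W := fun i hi => Submodule.subset_span (Or.inr ⟨i, hi, rfl⟩)
    have hy0 : y 0 t ∈ W := Submodule.subset_span (Or.inl rfl)
    have hy' : ∀ i ≤ n, y i t ∈ W := by
      intro i hi
      rcases i with _ | i
      · exact hy0
      · rw [hyr]
        refine W.smul_mem _ (W.sum_mem fun p hp => W.smul_mem _ (hf' _ ?_))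
        have := mem_antidiagonal.1 hp
        omega
    have hs : ∀ i < n, star (f i t) ∈ W := by
      intro i hi
      refine Submodule.span_mono ?_ (ih i hi)
      rintro x (hx | ⟨j, hj, hx⟩)
      · exact Or.inl hx
      · exact Or.inr ⟨j, by omega, hx⟩
    have h1 := hz n t ht
    have h2 : ∑ p ∈ antidiagonal n, (∑ q ∈ antidiagonal p.1, ε q.1 t • ε q.2 t) •
        star (f p.2 t) ∈ W := by
      rw [sub_eq_zero.1 h1]
      refine W.sub_mem (W.sum_mem fun p hp => W.smul_mem _ (hf' _ ?_))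
        (W.sum_mem fun p hp => W.smul_mem _ (hy' _ ?_))
      · have := mem_antidiagonal.1 hp
        omega
      · have := mem_antidiagonal.1 hp
        omega
    rw [Finset.Nat.sum_antidiagonal_eq_sum_range_succ (fun i j =>
      (∑ q ∈ antidiagonal i, ε q.1 t • ε q.2 t) • star (f j t)), Finset.sum_range_succ'] at h2
    have h3 : ∑ i ∈ range n, (∑ q ∈ antidiagonal (i + 1), ε q.1 t • ε q.2 t) •
        star (f (n - (i + 1)) t) ∈ W := by
      refine W.sum_mem fun i hi => W.smul_mem _ (hs _ ?_)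
      have := mem_range.1 hi
      omega
    have h4 := (W.add_mem_iff_right h3).1 h2
    exact (W.smul_mem_iff hB0).1 h4

end Stek.Sv
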