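import Pool.Agent.H.MP_fc2485_gt.Sv9.Conj9A
import Pool.Agent.H.MP_fc2485_gt.Sv9.Conj9B
import Pool.Agent.H.MP_fc2485_gt.Sv9.Alg9

/-!
On the boundary arc the vector `star Y0` is in the span of `u` and `Y0` (`m = 9`).

Jets on `I = Ioo c.a c.b` at `t`: `f n = (n!)⁻¹ Fv n` (`jet_Fv`), `y1, ε1` of `c` and `y2, ε2` of `c'`
(`jet_sol`). `good`, `quad` with boundary value zero and `jet_bil`, `jet_zero` give the hypotheses of
`locB9_alg` for `T`: so `T Y0 = 0`, then `T Y1 = 0` (`hT.ker`, `E0 ≠ 0`), `T u = 0`, and the kernel has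
dimension at most two. The conjugate form `T'` (`exists_conj`) kills `u` and `Y1`, and
`T'(f_i,f_j) = star T(star f_i, star f_j) = 0` for `i + j ≤ 5` by `star_f_mem` (with `base_star`), so
`locB9_ker` gives `T' Y0 = 0`, `T (star Y0) = 0`. Three vectors `u, Y0, star Y0` in a space of dimension
at most two, and `u, Y0` are independent (`hli`).
-/

set_option maxSynthPendingDepth 3

open Set Filter Topology InnerProductSpace Finset
open scoped ContDiff

namespace Stek.Sv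

open Stek Surface GCell

variable {S : Type*} [TopologicalSpace S] {M : Surface S} {σ : ℝ} {m : ℕ} {e : Fin m → S → ℝ}
  {G : Bl m}

private theorem conj9_real {X : Type*} [NormedAddCommGroup X] [NormedSpace ℂ X] {K : Set ℂ} {h : ℂ → X}
    {a b : ℝ} (hK : ∀ s ∈ Ioo a b, (s : ℂ) ∈ K) {h' : ℂ → X}
    (hd : ∀ z ∈ K, HasDerivWithinAt h (h' z) K z) {t : ℝ} (ht : t ∈ Ioo a b) :
    HasDerivAt (fun s : ℝ => h (s : ℂ)) (h' (t : ℂ)) t := by
  have h1 : HasDerivWithinAt (fun s : ℝ => (s : ℂ)) 1 (Ioo a b) t :=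
    (Complex.ofRealCLM.hasDerivAt (x := t)).hasDerivWithinAt
  have h2 := HasDerivWithinAt.scomp t (hd _ (hK t ht)) h1 (fun s hs => hK s hs)
  rw [one_smul] at h2
  exact h2.hasDerivAt (Ioo_mem_nhds ht.1 ht.2)

private theorem conj9_span {m : ℕ} {T : Bl m} (hsym : ∀ v w, T v w = T w v) {A B : Set (V m)}
    (h : ∀ a ∈ A, ∀ b ∈ B, T a b = 0) {v w : V m} (hv : v ∈ Submodule.span ℂ A)
    (hw : w ∈ Submodule.span ℂ B) : T v w = 0 := by
  have h1 : ∀ a ∈ A, T a w = 0 := by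
    intro a ha
    have : Submodule.span ℂ B ≤ LinearMap.ker (T a).toLinearMap :=
      Submodule.span_le.2 fun b hb => h a ha b hb
    exact this hw
  have h2 : Submodule.span ℂ A ≤ LinearMap.ker (T w).toLinearMap := by
    refine Submodule.span_le.2 fun a ha => ?_
    show T w a = 0
    rw [hsym]
    exact h1 a ha
  rw [hsym]
  exact h2 hv

theorem star_mem (H : Ctx M σ e G) (hm : m = 9) {C C' : Set S} (hC : IsCC M C) (hC' : IsCC M C')
    {c c' : GCell M e G} (hc : c.IsBase C) (hc' : Reach C' c') (hs : Same c c') {t : ℝ}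
    (ht : t ∈ Ioo c.a c.b) (hE : c'.E (t : ℂ) ≠ 0) (hw : wr c c' (t : ℂ) ≠ 0)
    (hli : LinearIndependent ℂ (vecB c c' (t : ℂ))) {T : Bl m} (hT : Lt c c' (t : ℂ) T) :
    star (c'.Y (t : ℂ)) ∈ Submodule.span ℂ {uv e (c.φ.map.symm (t : ℂ)), c'.Y (t : ℂ)} := by
  classical
  have hsm := hs
  have hcc : c.c = 0 := hc.1
  have hd : 0 < c.d := by
    have := c.hcd
    rwa [hcc] at this
  have hK : ∀ s ∈ Ioo c.a c.b, (s : ℂ) ∈ Rect c.a c.b c.c c.d := by
    intro s hs
    refine ⟨?_, ?_, ?_, ?_⟩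
    · simpa using hs.1.le
    · simpa using hs.2.le
    · rw [hcc]; simp
    · simpa using hd.le
  have hK' : ∀ s ∈ Ioo c.a c.b, (s : ℂ) ∈ Rect c'.a c'.b c'.c c'.d := by
    intro s hs
    rw [← hsm.ea, ← hsm.eb, ← hsm.ec, ← hsm.ed]
    exact hK s hs
  have hI : IsOpen (Ioo c.a c.b) := isOpen_Ioo
  have hC1 : C ⊆ M.bdry := hC.sub
  have hC1' : C' ⊆ M.bdry := hC'.sub
  have hcr : Reach C c := Reach.base hc
  -- jets
  have hf := jet_Fv (I := Ioo c.a c.b) H.mem c.hφ (fun s hs => c.sub (hK s hs))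
  obtain ⟨f, hfdef⟩ : ∃ f : ℕ → ℝ → V m, f = fun n (t : ℝ) =>
    ((n.factorial : ℂ)⁻¹) • Fv c.φ e n (t : ℂ) := ⟨_, rfl⟩
  rw [← hfdef] at hf
  have hf0 : ∀ s, f 0 s = Fv c.φ e 0 (s : ℂ) := by
    intro s
    rw [hfdef]
    simp
  obtain ⟨y1, ε1, jy1, je1, y10, e10, ry1, re1⟩ := jet_sol (I := Ioo c.a c.b) G hf
    (Y := fun s => c.Y (s : ℂ)) (E := fun s => c.E (s : ℂ))
    (fun s hs => by
      rw [hf0]
      exact conj9_real hK (h' := fun z => c.E z • Fv c.φ e 0 z) c.sol.dY hs)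
    (fun s hs => by
      rw [hf0]
      exact conj9_real hK (h' := fun z => G (c.Y z) (Fv c.φ e 0 z)) c.sol.dE hs)
  obtain ⟨y2, ε2, jy2, je2, y20, e20, ry2, re2⟩ := jet_sol (I := Ioo c.a c.b) G hf
    (Y := fun s => c'.Y (s : ℂ)) (E := fun s => c'.E (s : ℂ))
    (fun s hs => by
      rw [hf0, hsm.eφ]
      exact conj9_real hK' (h' := fun z => c'.E z • Fv c'.φ e 0 z) c'.sol.dY hs)
    (fun s hs => by
      rw [hf0, hsm.eφ]
      exact conj9_real hK' (h' := fun z => G (c'.Y z) (Fv c'.φ e 0 z)) c'.sol.dE hs)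
  have Y1 : ∀ s, y1 0 s = c.Y (s : ℂ) := fun s => congrFun y10 s
  have E1 : ∀ s, ε1 0 s = c.E (s : ℂ) := fun s => congrFun e10 s
  have Y2 : ∀ s, y2 0 s = c'.Y (s : ℂ) := fun s => congrFun y20 s
  have E2 : ∀ s, ε2 0 s = c'.E (s : ℂ) := fun s => congrFun e20 s
  have hE1 : ∀ s ∈ Ioo c.a c.b, c.E (s : ℂ) ≠ 0 := by
    intro s hs h0
    have h1 := (hc.2 s (Ioo_subset_Icc_self hs)).2.2
    rw [h0, norm_zero] at h1
    exact zero_ne_one h1
  have hYu : ∀ s ∈ Ioo c.a c.b, c.Y (s : ℂ) = c.E (s : ℂ) • uv e (c.φ.map.symm (s : ℂ)) :=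
    fun s hs => (hc.2 s (Ioo_subset_Icc_self hs)).2.1
  -- the identities for a form with boundary value zero
  have hFF : ∀ Q : Bl m, InB M e Q 0 → ∀ N, ∑ p ∈ antidiagonal N, Q (f p.1 t) (f p.2 t) = 0 := by
    intro Q hQ N
    refine jet_zero hI (jet_bil Q hf hf) (fun s hs => ?_) N t ht
    rw [Finset.Nat.antidiagonal_zero, sum_singleton, hf0]
    exact hQ.conf c.φ c.hφ _ (c.sub (hK s hs))
  have hYF1 : ∀ Q : Bl m, InB M e Q 0 → ∀ N, ∑ p ∈ antidiagonal N, Q (y1 p.1 t) (f p.2 t) = 0 := by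
    intro Q hQ N
    refine jet_zero hI (jet_bil Q jy1 hf) (fun s hs => ?_) N t ht
    rw [Finset.Nat.antidiagonal_zero, sum_singleton, hf0, Y1, good H hC1 hcr hQ _ (hK s hs), zero_mul]
  have hYF2 : ∀ Q : Bl m, InB M e Q 0 → ∀ N, ∑ p ∈ antidiagonal N, Q (y2 p.1 t) (f p.2 t) = 0 := by
    intro Q hQ N
    refine jet_zero hI (jet_bil Q jy2 hf) (fun s hs => ?_) N t ht
    have h1 := good H hC1' hc' hQ _ (hK' s hs)
    rw [← hsm.eφ, zero_mul] at h1
    rw [Finset.Nat.antidiagonal_zero, sum_singleton, hf0, Y2]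
    exact h1
  have hYY : ∀ Q : Bl m, InB M e Q 0 → Q (y2 0 t) (y2 0 t) = 0 := by
    intro Q hQ
    rw [Y2, quad H hC1' hc' hQ _ (hK' t ht), zero_mul]
  have hbas : ∀ ξ : (Fin m → ℂ) →L[ℂ] ℂ, ξ (ε2 0 t • y1 0 t - ε1 0 t • y2 0 t) = 0 →
      ξ (y2 0 t) = 0 → (∀ j ≤ 6, ξ (f j t) = 0) → ξ = 0 := by
    intro ξ h1 h2 h3
    have hcard : Fintype.card (Fin 9) = Module.finrank ℂ (V m) := by
      rw [Fintype.card_fin, Module.finrank_fin_fun, hm]
    have hsp := hli.span_eq_top_of_card_eq_finrank' hcard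
    have hle : Submodule.span ℂ (Set.range (vecB c c' (t : ℂ))) ≤ LinearMap.ker ξ.toLinearMap := by
      refine Submodule.span_le.2 ?_
      rintro _ ⟨i, rfl⟩
      show ξ (vecB c c' (t : ℂ) i) = 0
      unfold vecB
      refine Fin.cases ?_ (fun i => ?_) i
      · rw [Fin.cons_zero, ← Y1, ← E1, ← Y2, ← E2]
        exact h1
      · rw [Fin.cons_succ]
        refine Fin.cases ?_ (fun j => ?_) i
        · rw [Fin.cons_zero, ← Y2]
          exact h2
        · rw [Fin.cons_succ]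
          have h4 := h3 j (by omega)
          rw [hfdef] at h4
          simp only [map_smul, smul_eq_mul] at h4
          refine (mul_eq_zero.1 h4).resolve_left (inv_ne_zero ?_)
          exact_mod_cast Nat.factorial_ne_zero _
    rw [hsp] at hle
    ext v
    exact hle (Submodule.mem_top (x := v))
  have hord : ∀ i j, i + j ≤ 5 → T (f i t) (f j t) = 0 := by
    intro i j hij
    rw [hfdef]
    simp only [map_smul, smul_apply, smul_eq_mul, hT.ord i j hij, mul_zero]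
  have hT0 : T ≠ 0 := by
    intro h
    have := hT.norm
    rw [h, norm_zero] at this
    exact zero_ne_one this
  -- first step
  have e11 : ε1 1 t = G (c.Y (t : ℂ)) (Fv c.φ e 0 (t : ℂ)) := by
    have := re1 0 t
    rw [Finset.Nat.antidiagonal_zero, sum_singleton, hf0, Y1] at this
    rw [this]
    simp
  have e21 : ε2 1 t = G (c'.Y (t : ℂ)) (Fv c.φ e 0 (t : ℂ)) := by
    have := re2 0 t
    rw [Finset.Nat.antidiagonal_zero, sum_singleton, hf0, Y2] at this
    rw [this]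
    simp
  obtain ⟨hTY, hrk⟩ := locB9_alg hm T hT.inB.symm hT0 (f := fun n => f n t) (y1 := fun n => y1 n t)
    (y2 := fun n => y2 n t) (ε1 := fun n => ε1 n t) (ε2 := fun n => ε2 n t)
    (fun n => ry1 n t) (fun n => ry2 n t) (hFF T hT.inB) (hYF1 T hT.inB) (hYF2 T hT.inB)
    (hYY T hT.inB) (by
      show ε2 0 t ≠ 0
      rw [E2]
      exact hE) (by
      show ε2 0 t * ε1 1 t - ε1 0 t * ε2 1 t ≠ 0
      rw [E1, E2, e11, e21]
      exact hw) (by
      show T (ε2 0 t • y1 0 t - ε1 0 t • y2 0 t) = 0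
      rw [E1, E2, Y1, Y2]
      exact hT.ker) hbas hord
  have hTY' : T (c'.Y (t : ℂ)) = 0 := by
    rw [← Y2]
    exact hTY
  have hTc : T (c.Y (t : ℂ)) = 0 := by
    have h1 := hT.ker
    rw [map_sub, map_smul, map_smul, hTY', smul_zero, sub_zero] at h1
    exact (smul_eq_zero.1 h1).resolve_left hE
  have hTu : T (uv e (c.φ.map.symm (t : ℂ))) = 0 := by
    rw [hYu t ht, map_smul] at hTc
    exact (smul_eq_zero.1 hTc).resolve_left (hE1 t ht)
  -- the conjugate form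
  obtain ⟨T', hT', hT'e⟩ := exists_conj H hT.inB
  have hust : star (uv e (c.φ.map.symm (t : ℂ))) = uv e (c.φ.map.symm (t : ℂ)) := by
    funext i
    simp [uv]
  have hT'1 : T' (c.Y (t : ℂ)) = 0 := by
    ext w
    have h1 : star (c.Y (t : ℂ)) = star (c.E (t : ℂ)) • uv e (c.φ.map.symm (t : ℂ)) := by
      rw [hYu t ht, star_smul, hust]
    rw [hT'e, h1, map_smul, hTu, smul_zero]
    simp
  have hmem : ∀ n, star (f n t) ∈ Submodule.span ℂ ({y1 0 t} ∪ {x | ∃ i ≤ n, x = f i t}) := by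
    intro n
    refine star_f_mem (G := G) hI hf jy1 je1 ry1 (fun s hs => ?_) (fun s hs => ?_) ht n
    · rw [E1]
      exact hE1 s hs
    · rw [hf0, E1, Y1]
      exact base_star H hC1 hc hs
  have hord' : ∀ i j, i + j ≤ 5 → T' (f i t) (f j t) = 0 := by
    intro i j hij
    rw [hT'e]
    have h1 : T (star (f i t)) (star (f j t)) = 0 := by
      refine conj9_span hT.inB.symm ?_ (hmem i) (hmem j)
      rintro a ha b hb
      rcases ha with ha | ⟨i', hi', rfl⟩
      · have ha' : a = y1 0 t := ha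
        rw [ha', Y1, hTc]
        rfl
      · rcases hb with hb | ⟨j', hj', rfl⟩
        · have hb' : b = y1 0 t := hb
          rw [hb', Y1, hT.inB.symm, hTc]
          rfl
        · exact hord i' j' (by omega)
    rw [h1, star_zero]
  have hT'Y := locB9_ker T' hT'.symm (f := fun n => f n t) (y1 := fun n => y1 n t)
    (y2 := fun n => y2 n t) (ε1 := fun n => ε1 n t) (ε2 := fun n => ε2 n t)
    (fun n => ry2 n t) (hYF2 T' hT') (hYY T' hT') (by
      show T' (y1 0 t) = 0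
      rw [Y1]
      exact hT'1) hbas hord'
  have hTs : T (star (c'.Y (t : ℂ))) = 0 := by
    ext w
    have h1 : T' (c'.Y (t : ℂ)) (star w) = 0 := by
      rw [← Y2]
      have h2 : T' (y2 0 t) = 0 := hT'Y
      rw [h2]
      rfl
    rw [hT'e, star_star] at h1
    have h2 := congrArg star h1
    rw [star_star, star_zero] at h2
    exact h2
  -- the kernel
  set u := uv e (c.φ.map.symm (t : ℂ)) with hu
  have hZ : vecB c c' (t : ℂ) 0 = c'.E (t : ℂ) • c.Y (t : ℂ) - c.E (t : ℂ) • c'.Y (t : ℂ) := rfl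
  have hZ1 : vecB c c' (t : ℂ) 1 = c'.Y (t : ℂ) := rfl
  have hli2 : LinearIndependent ℂ ![u, c'.Y (t : ℂ)] := by
    rw [LinearIndependent.pair_iff]
    intro α β hαβ
    have h01 : LinearIndependent ℂ ![vecB c c' (t : ℂ) 0, vecB c c' (t : ℂ) 1] := by
      have h1 := hli.comp ![(0 : Fin 9), 1] (by decide)
      convert h1 using 1
      funext i
      fin_cases i <;> rfl
    rw [LinearIndependent.pair_iff] at h01
    have h2 : α • vecB c c' (t : ℂ) 0 + (α * c.E (t : ℂ) + β * (c'.E (t : ℂ) * c.E (t : ℂ))) •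
        vecB c c' (t : ℂ) 1 = 0 := by
      rw [hZ, hZ1, hYu t ht, ← hu]
      have h3 : (c'.E (t : ℂ) * c.E (t : ℂ)) • (α • u + β • c'.Y (t : ℂ)) = 0 := by
        rw [hαβ, smul_zero]
      rw [← h3]
      module
    obtain ⟨h3, h4⟩ := h01 _ _ h2
    rw [h3, zero_mul, zero_add] at h4
    exact ⟨h3, (mul_eq_zero.1 h4).resolve_right (mul_ne_zero hE (hE1 t ht))⟩
  have hset : ({u, c'.Y (t : ℂ)} : Set (V m)) = Set.range ![u, c'.Y (t : ℂ)] := by
    rw [Matrix.range_cons, Matrix.range_cons, Matrix.range_empty, Set.union_empty]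
    rfl
  have hfr : Module.finrank ℂ (Submodule.span ℂ ({u, c'.Y (t : ℂ)} : Set (V m))) = 2 := by
    rw [hset, finrank_span_eq_card hli2, Fintype.card_fin]
  have hle : Submodule.span ℂ ({u, c'.Y (t : ℂ)} : Set (V m)) ≤ LinearMap.ker T.toLinearMap := by
    refine Submodule.span_le.2 ?_
    rintro x hx
    rcases hx with hx | hx
    · rw [hx]
      exact hTu
    · have hx' : x = c'.Y (t : ℂ) := hx
      rw [hx']
      exact hTY'
  have heq := Submodule.eq_of_le_of_finrank_le hle (by rw [hfr]; exact hrk)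
  rw [heq]
  exact hTs

end Stek.Sv
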