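import Pool.Agent.H.MP_fc2485_gt.Sv9.Defs9

/-!
The conjugate form, and the conjugate of the gradient on the boundary arc.

The conjugate form of `T` is again a form with boundary value zero: `uv e x` is real, and
`star (Fv φ e 0 z) = -Fv φ' e 0 (-star z)` for the mirror chart `φ'` (`H.mir`, `Fv_mir`; the formula
says `Fv φ' e 0 z = -star (Fv φ e 0 (-star z))` for `z` in the target of `φ'`).
-/

set_option maxSynthPendingDepth 3

open Set Filter Topology InnerProductSpace Finset
open scoped ContDiff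

namespace Stek.Sv

open Stek Surface GCell

variable {S : Type*} [TopologicalSpace S] {M : Surface S} {σ : ℝ} {m : ℕ} {e : Fin m → S → ℝ}
  {G : Bl m}

/-- the conjugate form -/
theorem exists_conj (H : Ctx M σ e G) {T : Bl m} (hT : InB M e T 0) :
    ∃ T' : Bl m, InB M e T' 0 ∧ ∀ v w, T' v w = star (T (star v) (star w)) := by
  let L : V m →ₗ[ℂ] V m →ₗ[ℂ] ℂ := LinearMap.mk₂ ℂ (fun v w => star (T (star v) (star w)))
    (fun v v' w => by simp only [star_add, map_add, ContinuousLinearMap.add_apply])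
    (fun k v w => by
      simp only [star_smul, map_smul, ContinuousLinearMap.smul_apply, star_star])
    (fun v w w' => by simp only [star_add, map_add])
    (fun k v w => by simp only [star_smul, map_smul, star_star])
  let T' : Bl m := LinearMap.toContinuousLinearMap
    ((LinearMap.toContinuousLinearMap : (V m →ₗ[ℂ] ℂ) ≃ₗ[ℂ] (V m →L[ℂ] ℂ)).toLinearMap ∘ₗ L)
  have hT' : ∀ v w, T' v w = star (T (star v) (star w)) := fun v w => rfl
  refine ⟨T', ⟨fun v w => ?_, fun x hx => ?_, fun φ hφ z hz => ?_⟩, hT'⟩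
  · rw [hT', hT', hT.symm]
  · have hu : star (uv e x) = uv e x := by
      funext i
      simp [uv]
    rw [hT', hu, hT.sphere x hx, star_zero]
  · obtain ⟨φ', hφ', hm⟩ := H.mir φ hφ
    have hz' : -star z ∈ φ'.map.target := by
      rw [hm.target]
      simpa using hz
    have h1 := Fv_mir H.mem hφ hφ' hm hz'
    have h2 : star (Fv φ e 0 z) = -Fv φ' e 0 (-star z) := by
      rw [h1, neg_neg]
      simp
    rw [hT', h2, map_neg, map_neg, ContinuousLinearMap.neg_apply, neg_neg,
      hT.conf φ' hφ' _ hz', star_zero]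

/-- the real identity on the arc of a base cell -/
theorem base_star (H : Ctx M σ e G) {C : Set S} (hC : C ⊆ M.bdry) {c : GCell M e G}
    (hc : c.IsBase C) {t : ℝ} (ht : t ∈ Ioo c.a c.b) :
    (c.E t * c.E t) • star (Fv c.φ e 0 (t : ℂ)) =
      (c.E t * c.E t) • Fv c.φ e 0 (t : ℂ) -
        (2 * G (c.Y t) (Fv c.φ e 0 (t : ℂ))) • c.Y t := by
  have htI : t ∈ Icc c.a c.b := ⟨ht.1.le, ht.2.le⟩
  have hK : (t : ℂ) ∈ Rect c.a c.b c.c c.d := by
    refine ⟨by simpa using ht.1.le, by simpa using ht.2.le, ?_, ?_⟩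
    · rw [hc.1]
      simp
    · have := c.hcd
      rw [hc.1] at this
      simpa using this.le
  have htt : (t : ℂ) ∈ c.φ.map.target := c.sub hK
  have h1 := B_uF H.mem H.inK.inB c.hφ htt
  have hY := (hc.2 t htI).2.1
  -- the conjugate of the gradient
  have hs : star (Fv c.φ e 0 (t : ℂ)) = Fv c.φ e 0 (t : ℂ) -
      (2 * (Complex.I * (σ * c.φ.ρ t))) • uv e (c.φ.map.symm (t : ℂ)) := by
    funext i
    have h2 := (H.mem i).normal c.φ c.hφ t htt (by simp)
    have h3 : 0 < c.φ.ρ t := c.φ.ρ_pos _ htt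
    have h4 : dy c.φ (e i) t = -(σ * c.φ.ρ t * e i (c.φ.map.symm (t : ℂ))) := by
      unfold loc at h2
      field_simp at h2
      linarith
    change star ((dx c.φ (e i) t : ℂ) - Complex.I * (dy c.φ (e i) t : ℂ)) =
      ((dx c.φ (e i) t : ℂ) - Complex.I * (dy c.φ (e i) t : ℂ)) -
        (2 * (Complex.I * (σ * c.φ.ρ t))) * (e i (c.φ.map.symm (t : ℂ)) : ℂ)
    rw [h4]
    apply Complex.ext
    · simp
    · simp
      ring
  rw [hs, hY, smul_sub, map_smul, ContinuousLinearMap.smul_apply, h1, smul_smul, smul_smul,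
    smul_eq_mul]
  congr 2
  ring

end Stek.Sv
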