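import Pool.Agent.H.MP_fc2485_gt.Sv8.F8B

/-!
Definitions for case B in dimension nine.

Plan. `c` is a cell over a boundary arc of the component `C` with its solution `(E1 u, E1)` and `c'`
the continuation `(Y0, E0)` of a solution of another component `C'` to the same rectangle.
1. (Lim9, Int9) At every point `z` of the closed rectangle there is a form `T` with boundary value
   zero, of norm one, which kills `Z = E0 Y1 - E1 Y0` and has `T(F⁽ⁱ⁾,F⁽ʲ⁾) = 0` for `i + j ≤ 5` at
   `z`: at generic interior points it is a limit of covering forms, everywhere a limit of limits.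
2. (Gen9, Arc9) For `m = 9`, on an arc `J` of the bottom side `E0`, the Wronskian and the nine vectors
   `Z, Y0, F, ..., F⁽⁶⁾` are not degenerate.
3. (Alg9, Jet9, Conj9) For `t ∈ J` the form `T` kills `Y0`, so also `u`, and its kernel has dimension
   at most two. The conjugate form has the same properties (`star F⁽ⁿ⁾` is in the span of
   `u, F, ..., F⁽ⁿ⁾`, and `u` is in the kernel), so it kills `Y0`, that is `T` kills `star Y0`. So
   `star Y0` is in the span of `u, Y0` on `J`.
4. (Geo9) This is impossible for a positive definite `G`.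
-/

set_option maxSynthPendingDepth 3

open Set Filter Topology InnerProductSpace
open scoped ContDiff

namespace Stek.Sv

open Stek Surface GCell

variable {S : Type*} [TopologicalSpace S] {M : Surface S} {σ : ℝ} {m : ℕ} {e : Fin m → S → ℝ}
  {G : Bl m}

/-- two cells in the same chart over the same rectangle -/
structure Same (c c' : GCell M e G) : Prop where
  eφ : c.φ = c'.φ
  ea : c.a = c'.a
  eb : c.b = c'.b
  ec : c.c = c'.c
  ed : c.d = c'.d

/-- the two solutions are not proportional at `z` -/
def NoProp (c c' : GCell M e G) (z : ℂ) : Prop :=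
  ¬ ∃ t : ℂ, t ≠ 0 ∧ c.Y z = t • c'.Y z ∧ c.E z = t * c'.E z

/-- limits of covering forms at the point `z` -/
structure Lt (c c' : GCell M e G) (z : ℂ) (T : Bl m) : Prop where
  norm : ‖T‖ = 1
  inB : InB M e T 0
  ker : T (c'.E z • c.Y z - c.E z • c'.Y z) = 0
  ord : ∀ i j : ℕ, i + j ≤ 5 → T (Fv c.φ e i z) (Fv c.φ e j z) = 0

/-- the Wronskian -/
noncomputable def wr (c c' : GCell M e G) (z : ℂ) : ℂ :=
  c'.E z * G (c.Y z) (Fv c.φ e 0 z) - c.E z * G (c'.Y z) (Fv c.φ e 0 z)

/-- the nine vectors `Z, Y0, F, F', ..., F⁽⁶⁾` -/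
noncomputable def vecB (c c' : GCell M e G) (z : ℂ) : Fin 9 → V m :=
  Fin.cons (c'.E z • c.Y z - c.E z • c'.Y z) (Fin.cons (c'.Y z) fun j : Fin 7 => Fv c.φ e j z)

theorem Same.K {c c' : GCell M e G} (h : Same c c') : c.K = c'.K := by
  unfold GCell.K
  rw [h.ea, h.eb, h.ec, h.ed]

theorem Same.O {c c' : GCell M e G} (h : Same c c') : c.O = c'.O := by
  unfold GCell.O
  rw [h.ea, h.eb, h.ec, h.ed]

end Stek.Sv
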