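import Pool.Agent.H.MP_fc2485_gt.Sv.Defs

/-!
Geometry of the last step. Let `v = Y/E`, `x = v - u`. From `u' = F - iλu` and `star u = u` follows
`star F = F - 2iλu`. Differentiate `u ∧ v ∧ star v = 0` (`v' = F - μv`, `μ = E'/E`): this gives
`F ∧ x ∧ star x = 0`. If `star x = β x`, then with `G(x,x) = -2 G(u,x)` and the conjugate equation
`β² G(x,x) = -2 β G(u,x)` we get `β = 1` (as `G(x,x) ≠ 0`: otherwise `G(star x, x) = 0`), so `v` is
real. So at every point `v` is real or `F ∈ span(u, v)`. `v` is not real on an interval: the derivative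
gives `2iλu = (μ - star μ) v`. So on a small interval `F ∈ span(u, Y)`. Then for linear forms `ξ, η`
the functions `w_ξη = ξ(u) η(Y) - ξ(Y) η(u)` satisfy `w_ξη' = γ w_ξη` with the same `γ`, so
`w_ξη = const · w_ξ0η0` near `t1` where `w_ξ0η0(t1) ≠ 0`; if `ξ` kills `u(t1)` and `Y(t1)`
(`3 ≤ m`), then `w_ξη = 0` for all `η`, `ξ(u) Y = ξ(Y) u`, `ξ(u) = 0` near `t1`: contradiction.
-/

set_option maxSynthPendingDepth 3

open Set Filter Topology

namespace Stek.Sv

/-- the derivative of a linear form along a curve -/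
private theorem form_deriv {m : ℕ} (ξ : V m →L[ℂ] ℂ) {u : ℝ → V m} {u' : V m} {t : ℝ}
    (h : HasDerivAt u u' t) : HasDerivAt (fun s => ξ (u s)) (ξ u') t :=
  (ξ.restrictScalars ℝ).hasFDerivAt.comp_hasDerivAt t h

/-- a form which kills a subspace but not a vector -/
private theorem exists_form {m : ℕ} {p : Submodule ℂ (V m)} {v : V m} (hv : v ∉ p) :
    ∃ ξ : V m →L[ℂ] ℂ, ξ v ≠ 0 ∧ ∀ w ∈ p, ξ w = 0 := by
  obtain ⟨f, hf, hp⟩ := Submodule.exists_le_ker_of_notMem hv
  exact ⟨LinearMap.toContinuousLinearMap f, hf, fun w hw => hp hw⟩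

/-- two forms which are independent on two independent vectors -/
private theorem exists_pair {m : ℕ} {u Y : V m} (h : LinearIndependent ℂ ![u, Y]) :
    ∃ η ζ : V m →L[ℂ] ℂ, η u * ζ Y - η Y * ζ u ≠ 0 := by
  have h' := LinearIndependent.pair_iff.1 h
  have hu : u ∉ Submodule.span ℂ {Y} := by
    intro hmem
    obtain ⟨a, ha⟩ := Submodule.mem_span_singleton.1 hmem
    have := h' 1 (-a) (by rw [← ha]; module)
    exact one_ne_zero this.1
  have hY : Y ∉ Submodule.span ℂ {u} := by
    intro hmem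
    obtain ⟨a, ha⟩ := Submodule.mem_span_singleton.1 hmem
    have := h' (-a) 1 (by rw [← ha]; module)
    exact one_ne_zero this.2
  obtain ⟨η, hη, hη0⟩ := exists_form hu
  obtain ⟨ζ, hζ, hζ0⟩ := exists_form hY
  refine ⟨η, ζ, ?_⟩
  rw [hη0 Y (Submodule.mem_span_singleton_self Y), zero_mul, sub_zero]
  exact mul_ne_zero hη hζ

/-- the derivative of a `3 × 3` determinant with a zero row, for the curves `u, Y, star Y` -/
private theorem det_step {a b c : Fin 3 → ℝ → ℂ} {a' b' c' : Fin 3 → ℂ} {t : ℝ}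
    (ha : ∀ i, HasDerivAt (a i) (a' i) t) (hb : ∀ i, HasDerivAt (b i) (b' i) t)
    (hc : ∀ i, HasDerivAt (c i) (c' i) t) (h0 : ∀ i, a i t = 0)
    (hD : ∀ᶠ s in 𝓝 t, a 0 s * (b 1 s * c 2 s - b 2 s * c 1 s) -
      a 1 s * (b 0 s * c 2 s - b 2 s * c 0 s) + a 2 s * (b 0 s * c 1 s - b 1 s * c 0 s) = 0) :
    a' 0 * (b 1 t * c 2 t - b 2 t * c 1 t) - a' 1 * (b 0 t * c 2 t - b 2 t * c 0 t) +
      a' 2 * (b 0 t * c 1 t - b 1 t * c 0 t) = 0 := by
  have h := (((ha 0).mul (((hb 1).mul (hc 2)).sub ((hb 2).mul (hc 1)))).sub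
    ((ha 1).mul (((hb 0).mul (hc 2)).sub ((hb 2).mul (hc 0))))).add
    ((ha 2).mul (((hb 0).mul (hc 1)).sub ((hb 1).mul (hc 0))))
  have hz : HasDerivAt (fun _ : ℝ => (0 : ℂ)) 0 t := hasDerivAt_const t 0
  have h2 := h.unique (hz.congr_of_eventuallyEq hD)
  simp only [h0, zero_mul, add_zero] at h2
  exact h2

/-- the determinant of three forms on three vectors, one in the span of the others -/
private theorem det_zero {m : ℕ} (ξ η ζ : V m →L[ℂ] ℂ) {u Y Z : V m}
    (h : Z ∈ Submodule.span ℂ {u, Y}) :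
    ξ u * (η Y * ζ Z - η Z * ζ Y) - ξ Y * (η u * ζ Z - η Z * ζ u) +
      ξ Z * (η u * ζ Y - η Y * ζ u) = 0 := by
  obtain ⟨p, q, rfl⟩ := Submodule.mem_span_pair.1 h
  simp only [map_add, map_smul, smul_eq_mul]
  ring

section
variable {m : ℕ} {G : Bl m} {a b : ℝ} {u F Y : ℝ → V m} {E : ℝ → ℂ} {l : ℝ → ℝ}

/-- the conjugate of `F` -/
private theorem star_F (hu : ∀ t ∈ Ioo a b, star (u t) = u t)
    (du : ∀ t ∈ Ioo a b, HasDerivAt u (F t - (Complex.I * l t) • u t) t) {t : ℝ}
    (ht : t ∈ Ioo a b) : star (F t) = F t - (2 * Complex.I * l t) • u t := by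
  have h1 : HasDerivAt (fun s => star (u s)) (star (F t - (Complex.I * l t) • u t)) t :=
    (du t ht).star
  have h2 : (fun s => star (u s)) =ᶠ[𝓝 t] u :=
    Filter.eventually_of_mem (isOpen_Ioo.mem_nhds ht) fun s hs => hu s hs
  have h3 := h1.unique ((du t ht).congr_of_eventuallyEq h2)
  rw [star_sub, star_smul, hu t ht] at h3
  have h4 : star (Complex.I * (l t : ℂ)) = -(Complex.I * l t) := by
    simp
  rw [h4] at h3
  have h5 : star (F t) = F t - (Complex.I * l t) • u t + (-(Complex.I * l t)) • u t := by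
    rw [← h3]
    abel
  rw [h5]
  module

/-- the alternative at every point -/
private theorem alt (hsym : ∀ v w, G v w = G w v)
    (hreal : ∀ v w, G (star v) (star w) = star (G v w))
    (hpd : ∀ v : V m, v ≠ 0 → 0 < (G (star v) v).re)
    (hu : ∀ t ∈ Ioo a b, star (u t) = u t)
    (huu : ∀ t ∈ Ioo a b, G (u t) (u t) = 1)
    (du : ∀ t ∈ Ioo a b, HasDerivAt u (F t - (Complex.I * l t) • u t) t)
    (dY : ∀ t ∈ Ioo a b, HasDerivAt Y (E t • F t) t)
    (hYY : ∀ t ∈ Ioo a b, G (Y t) (Y t) = E t ^ 2)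
    (hli : ∀ t ∈ Ioo a b, LinearIndependent ℂ ![u t, Y t])
    (hmem : ∀ t ∈ Ioo a b, star (Y t) ∈ Submodule.span ℂ {u t, Y t}) {t : ℝ}
    (ht : t ∈ Ioo a b) (hF : F t ∉ Submodule.span ℂ {u t, Y t}) :
    E t • star (Y t) = star (E t) • Y t := by
  obtain ⟨p, q, hpq⟩ := Submodule.mem_span_pair.1 (hmem t ht)
  obtain ⟨ξ, hξ, hξ0⟩ := exists_form hF
  obtain ⟨η, ζ, hηζ⟩ := exists_pair (hli t ht)
  have hξu : ξ (u t) = 0 := hξ0 _ (Submodule.subset_span (by simp))
  have hξY : ξ (Y t) = 0 := hξ0 _ (Submodule.subset_span (by simp))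
  have hξs : ξ (star (Y t)) = 0 := hξ0 _ (hmem t ht)
  have dS : HasDerivAt (fun s => star (Y s)) (star (E t • F t)) t := (dY t ht).star
  have hD : ∀ᶠ s in 𝓝 t, ξ (u s) * (η (Y s) * ζ (star (Y s)) - η (star (Y s)) * ζ (Y s)) -
      ξ (Y s) * (η (u s) * ζ (star (Y s)) - η (star (Y s)) * ζ (u s)) +
      ξ (star (Y s)) * (η (u s) * ζ (Y s) - η (Y s) * ζ (u s)) = 0 :=
    Filter.eventually_of_mem (isOpen_Ioo.mem_nhds ht) fun s hs => det_zero ξ η ζ (hmem s hs)
  have hstep := det_step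
    (a := ![fun s => ξ (u s), fun s => ξ (Y s), fun s => ξ (star (Y s))])
    (b := ![fun s => η (u s), fun s => η (Y s), fun s => η (star (Y s))])
    (c := ![fun s => ζ (u s), fun s => ζ (Y s), fun s => ζ (star (Y s))])
    (a' := ![ξ (F t - (Complex.I * l t) • u t), ξ (E t • F t), ξ (star (E t • F t))])
    (b' := ![η (F t - (Complex.I * l t) • u t), η (E t • F t), η (star (E t • F t))])
    (c' := ![ζ (F t - (Complex.I * l t) • u t), ζ (E t • F t), ζ (star (E t • F t))]) (t := t)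
    (by
      intro i
      fin_cases i
      · exact form_deriv ξ (du t ht)
      · exact form_deriv ξ (dY t ht)
      · exact form_deriv ξ dS)
    (by
      intro i
      fin_cases i
      · exact form_deriv η (du t ht)
      · exact form_deriv η (dY t ht)
      · exact form_deriv η dS)
    (by
      intro i
      fin_cases i
      · exact form_deriv ζ (du t ht)
      · exact form_deriv ζ (dY t ht)
      · exact form_deriv ζ dS)
    (by
      intro i
      fin_cases i
      · exact hξu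
      · exact hξY
      · exact hξs)
    hD
  simp only [Matrix.cons_val_zero, Matrix.cons_val_one, Matrix.cons_val] at hstep
  rw [star_smul, star_F hu du ht, map_sub, map_smul, map_smul, map_smul, map_sub, map_smul,
    hξu, smul_zero, smul_zero, sub_zero, ← hpq] at hstep
  simp only [map_add, map_smul, smul_eq_mul] at hstep
  have hrel : star (E t) = p + q * E t := by
    have h1 : ξ (F t) * (η (u t) * ζ (Y t) - η (Y t) * ζ (u t)) *
        (star (E t) - (p + q * E t)) = 0 := by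
      linear_combination hstep
    rcases mul_eq_zero.1 h1 with h2 | h2
    · exact absurd h2 (mul_ne_zero hξ hηζ)
    · exact sub_eq_zero.1 h2
  -- the vector `z = Y - E u`
  set z : V m := Y t - E t • u t with hz
  have hz0 : z ≠ 0 := by
    intro h0
    have h' := LinearIndependent.pair_iff.1 (hli t ht) (-E t) 1 (by
      rw [one_smul, neg_smul, neg_add_eq_sub]
      exact h0)
    exact one_ne_zero h'.2
  have hsz : star z = q • z := by
    rw [hz, star_sub, star_smul, hu t ht, ← hpq, hrel]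
    module
  have hq0 : q ≠ 0 := by
    rintro rfl
    rw [zero_smul, star_eq_zero] at hsz
    exact hz0 hsz
  have hGz : G z z ≠ 0 := by
    intro h0
    have h1 := hpd z hz0
    rw [hsz, map_smul, smul_apply, h0, smul_zero] at h1
    simp at h1
  have e1 : G z z = -2 * E t * G (u t) z := by
    rw [hz]
    simp only [map_sub, map_smul, sub_apply, smul_apply,
      smul_eq_mul, hYY t ht, huu t ht, hsym (Y t) (u t)]
    ring
  have e2 : q ^ 2 * G z z = -2 * star (E t) * (q * G (u t) z) := by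
    have h1 : G (star z) (star z) = star (G z z) := hreal z z
    have h2 : G (star (u t)) (star z) = star (G (u t) z) := hreal (u t) z
    rw [hu t ht, hsz, map_smul, smul_eq_mul] at h2
    rw [hsz, map_smul, map_smul, smul_apply, smul_eq_mul, smul_eq_mul, e1,
      star_mul', star_mul', ← h2] at h1
    have h3 : star (-2 : ℂ) = -2 := by
      simp
    rw [h3] at h1
    rw [e1]
    linear_combination h1
  have e3 : q * E t = star (E t) := by
    have h1 : G z z * q * (q * E t - star (E t)) = 0 := by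
      linear_combination E t * e2 - q * star (E t) * e1
    rcases mul_eq_zero.1 h1 with h2 | h2
    · exact absurd h2 (mul_ne_zero hGz hq0)
    · exact sub_eq_zero.1 h2
  have hp : p = 0 := by
    linear_combination -hrel - e3
  rw [← hpq, hp, zero_smul, zero_add, smul_smul, ← e3, mul_comm]

end

theorem geo_absurd {m : ℕ} (hm3 : 3 ≤ m) {G : Bl m} (hsym : ∀ v w, G v w = G w v)
    (hreal : ∀ v w, G (star v) (star w) = star (G v w))
    (hpd : ∀ v : V m, v ≠ 0 → 0 < (G (star v) v).re) {a b : ℝ} (hab : a < b)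
    {u F Y : ℝ → V m} {E : ℝ → ℂ} {l : ℝ → ℝ} (hu : ∀ t ∈ Ioo a b, star (u t) = u t)
    (hl : ∀ t ∈ Ioo a b, l t ≠ 0) (huu : ∀ t ∈ Ioo a b, G (u t) (u t) = 1)
    (du : ∀ t ∈ Ioo a b, HasDerivAt u (F t - (Complex.I * l t) • u t) t)
    (dY : ∀ t ∈ Ioo a b, HasDerivAt Y (E t • F t) t)
    (dE : ∀ t ∈ Ioo a b, HasDerivAt E (G (Y t) (F t)) t)
    (hYY : ∀ t ∈ Ioo a b, G (Y t) (Y t) = E t ^ 2) (hE : ∀ t ∈ Ioo a b, E t ≠ 0)
    (hli : ∀ t ∈ Ioo a b, LinearIndependent ℂ ![u t, Y t])
    (hmem : ∀ t ∈ Ioo a b, star (Y t) ∈ Submodule.span ℂ {u t, Y t})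
    (hsp : ∀ ξ : V m →L[ℂ] ℂ, ∀ t0 ∈ Ioo a b, (∀ᶠ t in 𝓝 t0, ξ (u t) = 0) → ξ = 0) : False := by
  classical
  -- a point where `Y / E` is not real
  have hex : ∃ t1 ∈ Ioo a b, E t1 • star (Y t1) - star (E t1) • Y t1 ≠ 0 := by
    by_contra hcon
    push Not at hcon
    obtain ⟨t, ht⟩ := nonempty_Ioo.2 hab
    have dR : HasDerivAt (fun s => E s • star (Y s) - star (E s) • Y s)
        ((E t • star (E t • F t) + G (Y t) (F t) • star (Y t)) -
          (star (E t) • (E t • F t) + star (G (Y t) (F t)) • Y t)) t :=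
      ((dE t ht).smul (dY t ht).star).sub ((dE t ht).star.smul (dY t ht))
    have h0 : (fun s => E s • star (Y s) - star (E s) • Y s) =ᶠ[𝓝 t] fun _ => (0 : V m) :=
      Filter.eventually_of_mem (isOpen_Ioo.mem_nhds ht) fun s hs => hcon s hs
    have h1 := dR.unique ((hasDerivAt_const t (0 : V m)).congr_of_eventuallyEq h0)
    rw [star_smul, star_F hu du ht] at h1
    have h2 : star (Y t) = (star (E t) / E t) • Y t := by
      have := sub_eq_zero.1 (hcon t ht)
      rw [div_eq_inv_mul, ← smul_smul, ← this, smul_smul, inv_mul_cancel₀ (hE t ht), one_smul]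
    rw [h2] at h1
    have h3 := LinearIndependent.pair_iff.1 (hli t ht)
      (-(E t * star (E t) * (2 * Complex.I * l t)))
      (G (Y t) (F t) * (star (E t) / E t) - star (G (Y t) (F t))) (by
        rw [← h1]
        module)
    have h4 := neg_eq_zero.1 h3.1
    have h5 : star (E t) ≠ 0 := star_ne_zero.2 (hE t ht)
    have h6 : (2 * Complex.I * (l t : ℂ)) ≠ 0 :=
      mul_ne_zero (mul_ne_zero two_ne_zero Complex.I_ne_zero) (Complex.ofReal_ne_zero.2 (hl t ht))
    exact mul_ne_zero (mul_ne_zero (hE t ht) h5) h6 h4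
  obtain ⟨t1, ht1, hR⟩ := hex
  -- near `t1` the vector `F` is in the span of `u, Y`
  have hcY : ∀ t ∈ Ioo a b, ContinuousAt Y t := fun t ht => (dY t ht).continuousAt
  have hcE : ∀ t ∈ Ioo a b, ContinuousAt E t := fun t ht => (dE t ht).continuousAt
  have hcu : ∀ t ∈ Ioo a b, ContinuousAt u t := fun t ht => (du t ht).continuousAt
  have hnear1 : ∀ᶠ t in 𝓝 t1, E t • star (Y t) - star (E t) • Y t ≠ 0 := by
    have hc : ContinuousAt (fun s => E s • star (Y s) - star (E s) • Y s) t1 :=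
      ((hcE t1 ht1).smul (hcY t1 ht1).star).sub ((hcE t1 ht1).star.smul (hcY t1 ht1))
    exact hc.eventually_ne hR
  obtain ⟨η0, ζ0, h00⟩ := exists_pair (hli t1 ht1)
  have hnear2 : ∀ᶠ t in 𝓝 t1, η0 (u t) * ζ0 (Y t) - η0 (Y t) * ζ0 (u t) ≠ 0 := by
    have hc : ContinuousAt (fun t => η0 (u t) * ζ0 (Y t) - η0 (Y t) * ζ0 (u t)) t1 :=
      ((η0.continuous.continuousAt.comp (hcu t1 ht1)).mul
        (ζ0.continuous.continuousAt.comp (hcY t1 ht1))).sub
        ((η0.continuous.continuousAt.comp (hcY t1 ht1)).mul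
        (ζ0.continuous.continuousAt.comp (hcu t1 ht1)))
    exact hc.eventually_ne h00
  have hnear3 : ∀ᶠ t in 𝓝 t1, t ∈ Ioo a b := isOpen_Ioo.mem_nhds ht1
  obtain ⟨ε, hε, hball⟩ := Metric.eventually_nhds_iff_ball.1 (hnear1.and (hnear2.and hnear3))
  have hFs : ∀ t ∈ Metric.ball t1 ε, F t ∈ Submodule.span ℂ {u t, Y t} := by
    intro t ht
    by_contra hF
    obtain ⟨h1, -, h3⟩ := hball t ht
    exact h1 (sub_eq_zero.2 (alt hsym hreal hpd hu huu du dY hYY hli hmem h3 hF))
  -- the derivative of `w`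
  have hw : ∀ ξ η : V m →L[ℂ] ℂ, ∀ t ∈ Metric.ball t1 ε,
      HasDerivAt (fun s => ξ (u s) * η (Y s) - ξ (Y s) * η (u s))
        (ξ (F t - (Complex.I * l t) • u t) * η (Y t) + ξ (u t) * η (E t • F t) -
          (ξ (E t • F t) * η (u t) + ξ (Y t) * η (F t - (Complex.I * l t) • u t))) t := by
    intro ξ η t ht
    obtain ⟨-, -, h3⟩ := hball t ht
    exact ((form_deriv ξ (du t h3)).mul (form_deriv η (dY t h3))).sub
      ((form_deriv ξ (dY t h3)).mul (form_deriv η (du t h3)))
  -- the form `ξ`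
  have hlt : Submodule.span ℂ {u t1, Y t1} < ⊤ := by
    rw [lt_top_iff_ne_top]
    intro htop
    have h1 : Module.finrank ℂ (Submodule.span ℂ ({u t1, Y t1} : Set (V m))) ≤ 2 := by
      have := finrank_span_finset_le_card (R := ℂ) ({u t1, Y t1} : Finset (V m))
      refine le_trans ?_ (this.trans Finset.card_le_two)
      rw [Finset.coe_insert, Finset.coe_singleton]
      exact le_rfl
    rw [htop, finrank_top, Module.finrank_fin_fun] at h1
    omega
  obtain ⟨f, hf0, hfk⟩ := Submodule.exists_le_ker_of_lt_top _ hlt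
  set ξ : V m →L[ℂ] ℂ := LinearMap.toContinuousLinearMap f with hξdef
  have hξ0 : ξ ≠ 0 := by
    intro h0
    apply hf0
    have := congrArg (fun x : V m →L[ℂ] ℂ => (x : V m →ₗ[ℂ] ℂ)) h0
    simpa [hξdef] using this
  have hξu : ξ (u t1) = 0 := hfk (Submodule.subset_span (by simp))
  have hξY : ξ (Y t1) = 0 := hfk (Submodule.subset_span (by simp))
  have hwz : ∀ η : V m →L[ℂ] ℂ, ∀ t ∈ Metric.ball t1 ε,
      ξ (u t) * η (Y t) - ξ (Y t) * η (u t) = 0 := by
    intro η t ht
    have hd : ∀ s ∈ Metric.ball t1 ε, HasDerivAt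
        (fun s => (ξ (u s) * η (Y s) - ξ (Y s) * η (u s)) /
          (η0 (u s) * ζ0 (Y s) - η0 (Y s) * ζ0 (u s))) 0 s := by
      intro s hs
      obtain ⟨-, h2, h3⟩ := hball s hs
      have h := (hw ξ η s hs).div (hw η0 ζ0 s hs) h2
      obtain ⟨α, β, hαβ⟩ := Submodule.mem_span_pair.1 (hFs s hs)
      convert! h using 1
      rw [← hαβ]
      simp only [map_add, map_sub, map_smul, smul_eq_mul]
      symm
      rw [div_eq_zero_iff]
      left
      ring
    have hconst := Metric.isOpen_ball.is_const_of_deriv_eq_zero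
      (convex_ball t1 ε).isPreconnected
      (fun s hs => (hd s hs).differentiableAt.differentiableWithinAt)
      (fun s hs => (hd s hs).deriv) ht (Metric.mem_ball_self hε)
    simp only [hξu, hξY, zero_mul, sub_zero, zero_div] at hconst
    obtain ⟨-, h2, -⟩ := hball t ht
    rcases div_eq_zero_iff.1 hconst with h | h
    · exact h
    · exact absurd h h2
  have hξt : ∀ t ∈ Metric.ball t1 ε, ξ (u t) = 0 := by
    intro t ht
    obtain ⟨-, -, h3⟩ := hball t ht
    have h4 : ξ (u t) • Y t - ξ (Y t) • u t = 0 := by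
      by_contra hne
      have : ξ (u t) • Y t - ξ (Y t) • u t ∉ (⊥ : Submodule ℂ (V m)) := by
        simpa using hne
      obtain ⟨η, hη, -⟩ := exists_form this
      apply hη
      rw [map_sub, map_smul, map_smul, smul_eq_mul, smul_eq_mul]
      exact hwz η t ht
    have h5 := LinearIndependent.pair_iff.1 (hli t h3) (-ξ (Y t)) (ξ (u t)) (by
      rw [← h4]
      module)
    exact h5.2
  exact hξ0 (hsp ξ t1 ht1 (Filter.eventually_of_mem (Metric.ball_mem_nhds t1 hε) hξt))

end Stek.Sv
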