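import Pool.Agent.H.MP_fc2485_gt.Sv8.Lim8
import Pool.Agent.H.MP_fc2485_gt.Sv.LocBA

/-!
Limits of covering forms vanish to order six on the diagonal. The proof of `limit_order` (Lim8) is
continued: the limit has `t_02 = t_03 = t_04 = 0` and kills `Z`. Its pairing with `F⁽⁶⁾` gives
`3 t_22 + 8 t_13 + 6 t_04 = 0`, and `3 t_22 + 4 t_13 + t_04 = 0`, so degree four vanishes. The
covering relation at the third derivative gives `T_k(F,F⁽³⁾) / a_k → 0` and at `F⁽⁵⁾` it gives `t_05 = 0`. The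
pairing of `Z` with `F⁽⁷⁾` gives `19 t_23 + 20 t_14 + 10 t_05 = 0`, and
`10 t_23 + 5 t_14 + t_05 = 0`, so degree five vanishes.
-/

set_option maxSynthPendingDepth 3

open Set Filter Topology

namespace Stek.Sv

private theorem lim9_jet {X : Type*} [NormedAddCommGroup X] [NormedSpace ℂ X] [CompleteSpace X]
    {f : ℂ → X} {z : ℂ} {r : ℝ} (hf : DifferentiableOn ℂ f (Metric.ball z r)) (j : ℕ) :
    ∀ s ∈ Metric.ball z r, HasDerivAt (iteratedDeriv j f) (iteratedDeriv (j + 1) f s) s := by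
  intro s hs
  have h1 := (hf.analyticOnNhd Metric.isOpen_ball).iterated_deriv j
  rw [← iteratedDeriv_eq_iterate] at h1
  have h2 := (h1 s hs).differentiableAt.hasDerivAt
  rwa [← iteratedDeriv_succ] at h2

private theorem lim9_bil {m : ℕ} (T : Bl m) {X W : ℂ → V m} {X' W' : V m} {s : ℂ}
    (hX : HasDerivAt X X' s) (hW : HasDerivAt W W' s) :
    HasDerivAt (fun s => T (X s) (W s)) (T X' (W s) + T (X s) W') s :=
  (T.hasFDerivAt.comp_hasDerivAt s hX).clm_apply hW

private theorem lim9_eq {g h : ℂ → ℂ} {z : ℂ} {r : ℝ} (hgh : ∀ s ∈ Metric.ball z r, g s = h s)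
    {s : ℂ} (hs : s ∈ Metric.ball z r) {g' h' : ℂ} (hg : HasDerivAt g g' s)
    (hh : HasDerivAt h h' s) : g' = h' := by
  apply hg.unique
  apply hh.congr_of_eventuallyEq
  filter_upwards [Metric.isOpen_ball.mem_nhds hs] with w hw using hgh w hw

/-- the entries of the Gram matrix of the derivatives -/
private noncomputable def lim9_tt {m : ℕ} (T : Bl m) (F : ℂ → V m) (i j : ℕ) (s : ℂ) : ℂ :=
  T (iteratedDeriv i F s) (iteratedDeriv j F s)

private theorem lim9_dt {m : ℕ} {z : ℂ} {r : ℝ} {F : ℂ → V m}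
    (hF : DifferentiableOn ℂ F (Metric.ball z r)) (T : Bl m) (i j : ℕ) :
    ∀ s ∈ Metric.ball z r, HasDerivAt (lim9_tt T F i j)
      (lim9_tt T F (i + 1) j s + lim9_tt T F i (j + 1) s) s := fun s hs =>
  lim9_bil T (lim9_jet hF i s hs) (lim9_jet hF j s hs)

private theorem lim9_sym {m : ℕ} {F : ℂ → V m} {T : Bl m} (symm : ∀ v w, T v w = T w v) (i j : ℕ)
    (s : ℂ) : lim9_tt T F i j s = lim9_tt T F j i s := symm _ _

/-- the relations between the derivatives of an isotropic curve -/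
private theorem lim9_a {m : ℕ} {z : ℂ} {r : ℝ} {F : ℂ → V m}
    (hF : DifferentiableOn ℂ F (Metric.ball z r)) (T : Bl m) (symm : ∀ v w, T v w = T w v)
    (hFF : ∀ s ∈ Metric.ball z r, T (F s) (F s) = 0) :
    (∀ s ∈ Metric.ball z r, lim9_tt T F 0 0 s = 0) ∧
    (∀ s ∈ Metric.ball z r, lim9_tt T F 0 1 s = 0) ∧
    (∀ s ∈ Metric.ball z r, lim9_tt T F 1 1 s + lim9_tt T F 0 2 s = 0) ∧
    (∀ s ∈ Metric.ball z r, 3 * lim9_tt T F 1 2 s + lim9_tt T F 0 3 s = 0) ∧
    (∀ s ∈ Metric.ball z r, 3 * lim9_tt T F 2 2 s + 4 * lim9_tt T F 1 3 s +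
      lim9_tt T F 0 4 s = 0) ∧
    (∀ s ∈ Metric.ball z r, 10 * lim9_tt T F 2 3 s + 5 * lim9_tt T F 1 4 s +
      lim9_tt T F 0 5 s = 0) := by
  have dt := lim9_dt hF T
  have sy := fun i j s => lim9_sym (F := F) symm i j s
  have c0 : ∀ s ∈ Metric.ball z r, lim9_tt T F 0 0 s = 0 := by
    intro s hs
    unfold lim9_tt
    rw [iteratedDeriv_zero]
    exact hFF s hs
  have c1 : ∀ s ∈ Metric.ball z r, lim9_tt T F 0 1 s = 0 := by
    intro s hs
    have h1 := lim9_eq c0 hs (dt 0 0 s hs) (hasDerivAt_const s 0)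
    rw [sy (0 + 1) 0 s] at h1
    linear_combination h1 / 2
  have c2 : ∀ s ∈ Metric.ball z r, lim9_tt T F 1 1 s + lim9_tt T F 0 2 s = 0 := by
    intro s hs
    exact lim9_eq c1 hs (dt 0 1 s hs) (hasDerivAt_const s 0)
  have c3 : ∀ s ∈ Metric.ball z r, 3 * lim9_tt T F 1 2 s + lim9_tt T F 0 3 s = 0 := by
    intro s hs
    have h1 := lim9_eq c2 hs ((dt 1 1 s hs).add (dt 0 2 s hs)) (hasDerivAt_const s 0)
    rw [sy (1 + 1) 1 s] at h1
    linear_combination h1
  have c4 : ∀ s ∈ Metric.ball z r, 3 * lim9_tt T F 2 2 s + 4 * lim9_tt T F 1 3 s +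
      lim9_tt T F 0 4 s = 0 := by
    intro s hs
    have h1 := lim9_eq c3 hs (((dt 1 2 s hs).const_mul 3).add (dt 0 3 s hs))
      (hasDerivAt_const s 0)
    linear_combination h1
  have c5 : ∀ s ∈ Metric.ball z r, 10 * lim9_tt T F 2 3 s + 5 * lim9_tt T F 1 4 s +
      lim9_tt T F 0 5 s = 0 := by
    intro s hs
    have h1 := lim9_eq c4 hs ((((dt 2 2 s hs).const_mul 3).add ((dt 1 3 s hs).const_mul 4)).add
      (dt 0 4 s hs)) (hasDerivAt_const s 0)
    rw [sy (2 + 1) 2 s] at h1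
    linear_combination h1
  exact ⟨c0, c1, c2, c3, c4, c5⟩

/-- the pairings of a solution with the derivatives -/
private theorem lim9_b {m : ℕ} {z : ℂ} {r : ℝ} {F Y : ℂ → V m} {E : ℂ → ℂ}
    (hF : DifferentiableOn ℂ F (Metric.ball z r)) (hE : DifferentiableOn ℂ E (Metric.ball z r))
    (dY : ∀ s ∈ Metric.ball z r, HasDerivAt Y (E s • F s) s) (T : Bl m)
    (symm : ∀ v w, T v w = T w v) (hFF : ∀ s ∈ Metric.ball z r, T (F s) (F s) = 0) {θ : ℂ}
    (hYF : ∀ s ∈ Metric.ball z r, T (Y s) (F s) = θ * deriv E s) {s : ℂ}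
    (hs : s ∈ Metric.ball z r) :
    T (Y s) (iteratedDeriv 2 F s) = θ * iteratedDeriv 3 E s ∧
    T (Y s) (iteratedDeriv 3 F s) = θ * iteratedDeriv 4 E s - E s * lim9_tt T F 0 2 s ∧
    T (Y s) (iteratedDeriv 5 F s) = θ * iteratedDeriv 6 E s -
      iteratedDeriv 2 E s * lim9_tt T F 0 2 s -
      deriv E s * (2 * lim9_tt T F 1 2 s + 3 * lim9_tt T F 0 3 s) -
      E s * (lim9_tt T F 2 2 s + 3 * lim9_tt T F 1 3 s + 3 * lim9_tt T F 0 4 s) ∧
    T (Y s) (iteratedDeriv 6 F s) = θ * iteratedDeriv 7 E s -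
      iteratedDeriv 3 E s * lim9_tt T F 0 2 s -
      iteratedDeriv 2 E s * (3 * lim9_tt T F 1 2 s + 4 * lim9_tt T F 0 3 s) -
      deriv E s * (3 * lim9_tt T F 2 2 s + 8 * lim9_tt T F 1 3 s + 6 * lim9_tt T F 0 4 s) -
      E s * (5 * lim9_tt T F 2 3 s + 6 * lim9_tt T F 1 4 s + 4 * lim9_tt T F 0 5 s) ∧
    T (Y s) (iteratedDeriv 7 F s) = θ * iteratedDeriv 8 E s -
      iteratedDeriv 4 E s * lim9_tt T F 0 2 s -
      iteratedDeriv 3 E s * (4 * lim9_tt T F 1 2 s + 5 * lim9_tt T F 0 3 s) -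
      iteratedDeriv 2 E s *
        (6 * lim9_tt T F 2 2 s + 15 * lim9_tt T F 1 3 s + 10 * lim9_tt T F 0 4 s) -
      deriv E s * (19 * lim9_tt T F 2 3 s + 20 * lim9_tt T F 1 4 s + 10 * lim9_tt T F 0 5 s) -
      E s * (5 * lim9_tt T F 3 3 s + 11 * lim9_tt T F 2 4 s + 10 * lim9_tt T F 1 5 s +
        5 * lim9_tt T F 0 6 s) := by
  obtain ⟨c0, c1, c2, c3, c4, c5⟩ := lim9_a hF T symm hFF
  have dt := lim9_dt hF T
  have sy := fun i j s => lim9_sym (F := F) symm i j s
  have je := fun i s hs => lim9_jet hE i s hs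
  have dy : ∀ j, ∀ s ∈ Metric.ball z r, HasDerivAt (fun s => T (Y s) (iteratedDeriv j F s))
      (E s * lim9_tt T F 0 j s + T (Y s) (iteratedDeriv (j + 1) F s)) s := by
    intro j s hs
    have h1 := lim9_bil T (dY s hs) (lim9_jet hF j s hs)
    rw [map_smul, smul_apply, smul_eq_mul] at h1
    unfold lim9_tt
    rw [iteratedDeriv_zero]
    exact h1
  have b0 : ∀ s ∈ Metric.ball z r, T (Y s) (iteratedDeriv 0 F s) = θ * iteratedDeriv 1 E s := by
    intro s hs
    rw [iteratedDeriv_zero, iteratedDeriv_one]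
    exact hYF s hs
  have b1 : ∀ s ∈ Metric.ball z r, T (Y s) (iteratedDeriv 1 F s) = θ * iteratedDeriv 2 E s := by
    intro s hs
    have h1 := lim9_eq b0 hs (dy 0 s hs) ((je 1 s hs).const_mul θ)
    rw [c0 s hs] at h1
    linear_combination h1
  have b2 : ∀ s ∈ Metric.ball z r, T (Y s) (iteratedDeriv 2 F s) = θ * iteratedDeriv 3 E s := by
    intro s hs
    have h1 := lim9_eq b1 hs (dy 1 s hs) ((je 2 s hs).const_mul θ)
    rw [c1 s hs] at h1
    linear_combination h1
  have b3 : ∀ s ∈ Metric.ball z r, T (Y s) (iteratedDeriv 3 F s) =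
      θ * iteratedDeriv 4 E s - iteratedDeriv 0 E s * lim9_tt T F 0 2 s := by
    intro s hs
    have h1 := lim9_eq b2 hs (dy 2 s hs) ((je 3 s hs).const_mul θ)
    rw [iteratedDeriv_zero]
    linear_combination h1
  have b4 : ∀ s ∈ Metric.ball z r, T (Y s) (iteratedDeriv 4 F s) =
      θ * iteratedDeriv 5 E s - iteratedDeriv 1 E s * lim9_tt T F 0 2 s -
        iteratedDeriv 0 E s * (lim9_tt T F 1 2 s + 2 * lim9_tt T F 0 3 s) := by
    intro s hs
    have h1 := lim9_eq b3 hs (dy 3 s hs) (((je 4 s hs).const_mul θ).sub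
      ((je 0 s hs).mul (dt 0 2 s hs)))
    rw [iteratedDeriv_zero] at h1 ⊢
    linear_combination h1
  have b5 : ∀ s ∈ Metric.ball z r, T (Y s) (iteratedDeriv 5 F s) =
      θ * iteratedDeriv 6 E s - iteratedDeriv 2 E s * lim9_tt T F 0 2 s -
        iteratedDeriv 1 E s * (2 * lim9_tt T F 1 2 s + 3 * lim9_tt T F 0 3 s) -
        iteratedDeriv 0 E s *
          (lim9_tt T F 2 2 s + 3 * lim9_tt T F 1 3 s + 3 * lim9_tt T F 0 4 s) := by
    intro s hs
    have h1 := lim9_eq b4 hs (dy 4 s hs) ((((je 5 s hs).const_mul θ).sub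
      ((je 1 s hs).mul (dt 0 2 s hs))).sub
      ((je 0 s hs).mul ((dt 1 2 s hs).add ((dt 0 3 s hs).const_mul 2))))
    rw [iteratedDeriv_zero] at h1 ⊢
    linear_combination h1
  have b6 : ∀ s ∈ Metric.ball z r, T (Y s) (iteratedDeriv 6 F s) =
      θ * iteratedDeriv 7 E s - iteratedDeriv 3 E s * lim9_tt T F 0 2 s -
        iteratedDeriv 2 E s * (3 * lim9_tt T F 1 2 s + 4 * lim9_tt T F 0 3 s) -
        iteratedDeriv 1 E s *
          (3 * lim9_tt T F 2 2 s + 8 * lim9_tt T F 1 3 s + 6 * lim9_tt T F 0 4 s) -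
        iteratedDeriv 0 E s *
          (5 * lim9_tt T F 2 3 s + 6 * lim9_tt T F 1 4 s + 4 * lim9_tt T F 0 5 s) := by
    intro s hs
    have h1 := lim9_eq b5 hs (dy 5 s hs) (((((je 6 s hs).const_mul θ).sub
      ((je 2 s hs).mul (dt 0 2 s hs))).sub
      ((je 1 s hs).mul (((dt 1 2 s hs).const_mul 2).add ((dt 0 3 s hs).const_mul 3)))).sub
      ((je 0 s hs).mul (((dt 2 2 s hs).add ((dt 1 3 s hs).const_mul 3)).add
        ((dt 0 4 s hs).const_mul 3))))
    simp only [Pi.add_apply] at h1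
    rw [iteratedDeriv_zero, sy (2 + 1) 2 s] at h1
    rw [iteratedDeriv_zero]
    linear_combination h1
  have b7 : ∀ s ∈ Metric.ball z r, T (Y s) (iteratedDeriv 7 F s) =
      θ * iteratedDeriv 8 E s - iteratedDeriv 4 E s * lim9_tt T F 0 2 s -
        iteratedDeriv 3 E s * (4 * lim9_tt T F 1 2 s + 5 * lim9_tt T F 0 3 s) -
        iteratedDeriv 2 E s *
          (6 * lim9_tt T F 2 2 s + 15 * lim9_tt T F 1 3 s + 10 * lim9_tt T F 0 4 s) -
        iteratedDeriv 1 E s *
          (19 * lim9_tt T F 2 3 s + 20 * lim9_tt T F 1 4 s + 10 * lim9_tt T F 0 5 s) -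
        iteratedDeriv 0 E s * (5 * lim9_tt T F 3 3 s + 11 * lim9_tt T F 2 4 s +
          10 * lim9_tt T F 1 5 s + 5 * lim9_tt T F 0 6 s) := by
    intro s hs
    have h1 := lim9_eq b6 hs (dy 6 s hs) ((((((je 7 s hs).const_mul θ).sub
      ((je 3 s hs).mul (dt 0 2 s hs))).sub
      ((je 2 s hs).mul (((dt 1 2 s hs).const_mul 3).add ((dt 0 3 s hs).const_mul 4)))).sub
      ((je 1 s hs).mul ((((dt 2 2 s hs).const_mul 3).add ((dt 1 3 s hs).const_mul 8)).add
        ((dt 0 4 s hs).const_mul 6)))).sub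
      ((je 0 s hs).mul ((((dt 2 3 s hs).const_mul 5).add ((dt 1 4 s hs).const_mul 6)).add
        ((dt 0 5 s hs).const_mul 4))))
    simp only [Pi.add_apply] at h1
    rw [iteratedDeriv_zero, sy (2 + 1) 2 s] at h1
    rw [iteratedDeriv_zero]
    linear_combination h1
  have hE1 : iteratedDeriv 1 E s = deriv E s := by rw [iteratedDeriv_one]
  have hE0 : iteratedDeriv 0 E s = E s := by rw [iteratedDeriv_zero]
  refine ⟨b2 s hs, ?_, ?_, ?_, ?_⟩
  · rw [b3 s hs, hE0]
  · rw [b5 s hs, hE0, hE1]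
  · rw [b6 s hs, hE0, hE1]
  · rw [b7 s hs, hE0, hE1]

/-- the second order difference quotient -/
private theorem lim9_quot {m : ℕ} {z : ℂ} {r : ℝ} {F Y : ℂ → V m} {E : ℂ → ℂ} (hr : 0 < r)
    (hF : DifferentiableOn ℂ F (Metric.ball z r)) (hE : DifferentiableOn ℂ E (Metric.ball z r))
    (dY : ∀ s ∈ Metric.ball z r, HasDerivAt Y (E s • F s) s) :
    ∃ D : ℂ → V m, (∀ s, Y s = Y z + (s - z) • (E z • F z) + (s - z) ^ 2 • D s) ∧
      ContinuousAt D z ∧
      (2 : ℂ) • D z = deriv E z • F z + E z • iteratedDeriv 1 F z := by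
  have hball : Metric.ball z r ∈ 𝓝 z := Metric.ball_mem_nhds z hr
  have hz : z ∈ Metric.ball z r := Metric.mem_ball_self hr
  have dYd : DifferentiableOn ℂ Y (Metric.ball z r) := fun s hs =>
    (dY s hs).differentiableAt.differentiableWithinAt
  have d1 : DifferentiableOn ℂ (dslope Y z) (Metric.ball z r) :=
    (Complex.differentiableOn_dslope hball).mpr dYd
  have d2 : DifferentiableOn ℂ (dslope (dslope Y z) z) (Metric.ball z r) :=
    (Complex.differentiableOn_dslope hball).mpr d1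
  have hq : ∀ s, Y s = Y z + (s - z) • dslope Y z s := by
    intro s
    rw [sub_smul_dslope]
    abel
  refine ⟨dslope (dslope Y z) z, ?_, (d2.differentiableAt hball).continuousAt, ?_⟩
  · intro s
    have h1 : dslope Y z s = dslope Y z z + (s - z) • dslope (dslope Y z) z s := by
      rw [sub_smul_dslope]
      abel
    have h2 : dslope Y z z = E z • F z := by
      rw [dslope_same, (dY z hz).deriv]
    rw [hq s, h1, h2]
    module
  · rw [dslope_same]
    have hj : ∀ s ∈ Metric.ball z r, HasDerivAt (dslope Y z) (deriv (dslope Y z) s) s := fun s hs =>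
      (d1.differentiableAt (Metric.isOpen_ball.mem_nhds hs)).hasDerivAt
    have hj2 : HasDerivAt (deriv (dslope Y z)) (iteratedDeriv 2 (dslope Y z) z) z := by
      have := lim9_jet d1 1 z hz
      rwa [iteratedDeriv_one] at this
    have h1 : ∀ s ∈ Metric.ball z r, E s • F s =
        dslope Y z s + (s - z) • deriv (dslope Y z) s := by
      intro s hs
      have h2 : HasDerivAt (fun s => Y z + (s - z) • dslope Y z s)
          ((s - z) • deriv (dslope Y z) s + (1 : ℂ) • dslope Y z s) s :=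
        (((hasDerivAt_id s).sub_const z).smul (hj s hs)).const_add (Y z)
      have h3 := (dY s hs).unique (h2.congr_of_eventuallyEq (Eventually.of_forall hq))
      rw [h3, one_smul]
      abel
    have h0 : HasDerivAt F (iteratedDeriv 1 F z) z := by
      have := lim9_jet hF 0 z hz
      rwa [iteratedDeriv_zero] at this
    have e0 : HasDerivAt E (deriv E z) z := by
      have := lim9_jet hE 0 z hz
      rwa [iteratedDeriv_zero, iteratedDeriv_one] at this
    have h4 := e0.smul h0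
    have h5 : HasDerivAt (fun s => dslope Y z s + (s - z) • deriv (dslope Y z) s)
        (deriv (dslope Y z) z + ((z - z) • iteratedDeriv 2 (dslope Y z) z +
          (1 : ℂ) • deriv (dslope Y z) z)) z :=
      (hj z hz).add (((hasDerivAt_id z).sub_const z).smul hj2)
    have h6 : HasDerivAt (fun s => E s • F s)
        (deriv (dslope Y z) z + ((z - z) • iteratedDeriv 2 (dslope Y z) z +
          (1 : ℂ) • deriv (dslope Y z) z)) z := by
      apply h5.congr_of_eventuallyEq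
      filter_upwards [hball] with s hs using h1 s hs
    have h7 := h4.unique h6
    rw [sub_self, zero_smul, zero_add, one_smul, ← two_smul ℂ] at h7
    rw [← h7]
    abel

private theorem lim9_apply {X X' : Type*} [NormedAddCommGroup X] [NormedSpace ℂ X]
    [NormedAddCommGroup X'] [NormedSpace ℂ X'] {L : ℕ → X →L[ℂ] X'} {L0 : X →L[ℂ] X'} {u : ℕ → X}
    {u0 : X} (hL : Tendsto L atTop (𝓝 L0)) (hu : Tendsto u atTop (𝓝 u0)) :
    Tendsto (fun k => L k (u k)) atTop (𝓝 (L0 u0)) := by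
  have h1 : Continuous fun p : (X →L[ℂ] X') × X => p.1 p.2 :=
    (isBoundedBilinearMap_apply (𝕜 := ℂ)).continuous
  exact (h1.tendsto (L0, u0)).comp (hL.prodMk_nhds hu)

private theorem lim9_cancel {u c : ℕ → ℂ} {c0 : ℂ} (h : Tendsto (fun k => u k * c k) atTop (𝓝 0))
    (hc : Tendsto c atTop (𝓝 c0)) (h0 : c0 ≠ 0) : Tendsto u atTop (𝓝 0) := by
  have h1 := h.div hc h0
  rw [zero_div] at h1
  apply h1.congr'
  filter_upwards [hc.eventually_ne h0] with k hk
  exact mul_div_cancel_right₀ _ hk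

theorem limit_order9 {m : ℕ} {z : ℂ} {r : ℝ} {F Y0 Y1 : ℂ → V m} {E0 E1 : ℂ → ℂ}
    (D : Two z r F Y0 Y1 E0 E1) {a : ℕ → ℂ} (ha : Tendsto a atTop (𝓝 0)) (ha0 : ∀ k, a k ≠ 0)
    (hab : ∀ k, z + a k ∈ Metric.ball z r) {T : ℕ → Bl m} {θ : ℕ → ℂ} {T0 : Bl m}
    (hT : Tendsto T atTop (𝓝 T0)) (hc : ∀ k, Comp2 z r F Y0 Y1 E0 E1 (T k) (θ k))
    (hcov : ∀ k, T k (E0 z • Y1 (z + a k) - E1 (z + a k) • Y0 z) = 0) :
    ∀ i j : ℕ, i + j ≤ 5 → T0 (iteratedDeriv i F z) (iteratedDeriv j F z) = 0 := by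
  obtain ⟨hC0, hZ0, hP2', hP3', hP4'⟩ := limit_order D ha ha0 hab hT hc hcov
  obtain ⟨hr, hF, dE0, dE1, dY0, dY1, hE0, hE1, hw⟩ := D
  have hz : z ∈ Metric.ball z r := Metric.mem_ball_self hr
  obtain ⟨Dq, hD1, hD2, hD3⟩ := lim9_quot hr hF dE1 dY1
  -- limits
  have hTT : ∀ {u : ℕ → V m} {u0 : V m} (v : V m), Tendsto u atTop (𝓝 u0) →
      Tendsto (fun k => T k (u k) v) atTop (𝓝 (T0 u0 v)) := fun v hu =>
    lim9_apply (lim9_apply hT hu) tendsto_const_nhds
  have hTc : ∀ u v : V m, Tendsto (fun k => T k u v) atTop (𝓝 (T0 u v)) := fun u v =>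
    hTT v tendsto_const_nhds
  have hza : Tendsto (fun k => z + a k) atTop (𝓝 z) := by
    simpa using (tendsto_const_nhds (x := z)).add ha
  have hDk : Tendsto (fun k => Dq (z + a k)) atTop (𝓝 (Dq z)) := hD2.tendsto.comp hza
  have hE1d : HasDerivAt E1 (deriv E1 z) z :=
    (dE1.differentiableAt (Metric.ball_mem_nhds z hr)).hasDerivAt
  have hEk : Tendsto (fun k => E1 (z + a k)) atTop (𝓝 (E1 z)) :=
    hE1d.continuousAt.tendsto.comp hza
  have hδ : Tendsto (fun k => (a k)⁻¹ * (E1 (z + a k) - E1 z)) atTop (𝓝 (deriv E1 z)) := by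
    have h1 := hE1d.tendsto_slope_zero
    have h2 : Tendsto a atTop (𝓝[≠] 0) :=
      tendsto_nhdsWithin_iff.mpr ⟨ha, Eventually.of_forall ha0⟩
    exact h1.comp h2
  -- the limit form is symmetric and kills `F`
  have hsym0 : ∀ v w, T0 v w = T0 w v := fun v w =>
    tendsto_nhds_unique ((hTc v w).congr fun k => (hc k).symm v w) (hTc w v)
  have hFF0 : ∀ s ∈ Metric.ball z r, T0 (F s) (F s) = 0 := fun s hs =>
    tendsto_nhds_unique ((hTc (F s) (F s)).congr fun k => (hc k).hFF s hs) tendsto_const_nhds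
  obtain ⟨c0, c1, c2, c3, c4, c5⟩ := lim9_a hF T0 hsym0 hFF0
  have a1 : ∀ s ∈ Metric.ball z r, T0 (F s) (iteratedDeriv 1 F s) = 0 := by
    intro s hs
    have := c1 s hs
    unfold lim9_tt at this
    rwa [iteratedDeriv_zero] at this
  -- the covering relation
  have hR : ∀ k v, E0 z * (T k (Y1 z) v + a k * (E1 z * T k (F z) v) +
      a k ^ 2 * T k (Dq (z + a k)) v) - E1 (z + a k) * T k (Y0 z) v = 0 := by
    intro k v
    have h1 := congrArg (fun L : V m →L[ℂ] ℂ => L v) (hcov k)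
    have h2 := hD1 (z + a k)
    rw [add_sub_cancel_left] at h2
    rw [h2] at h1
    simp only [map_sub, map_add, map_smul, sub_apply, add_apply, smul_apply, smul_eq_mul,
      zero_apply] at h1
    linear_combination h1
  -- degree 0
  have hθ : Tendsto (fun k => θ k / a k ^ 2) atTop (𝓝 0) := by
    apply lim9_cancel (c := fun k => E0 z * deriv E1 z - E1 (z + a k) * deriv E0 z)
      (c0 := E0 z * deriv E1 z - E1 z * deriv E0 z) _ _ hw
    · have h1 : T0 (Dq z) (F z) = 0 := by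
        have h2 := congrArg (fun v => T0 v (F z)) hD3
        simp only [map_add, map_smul, add_apply, smul_apply, smul_eq_mul] at h2
        rw [hFF0 z hz, hsym0 (iteratedDeriv 1 F z) (F z), a1 z hz] at h2
        linear_combination h2 / 2
      have h3 : Tendsto (fun k => -(E0 z * T k (Dq (z + a k)) (F z))) atTop (𝓝 0) := by
        have := ((hTT (F z) hDk).const_mul (E0 z)).neg
        rwa [h1, mul_zero, neg_zero] at this
      refine h3.congr fun k => ?_
      have h4 := hR k (F z)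
      rw [(hc k).hYF1 z hz, (hc k).hYF0 z hz, (hc k).hFF z hz] at h4
      have h5 := ha0 k
      field_simp
      linear_combination -h4
    · exact tendsto_const_nhds.sub (hEk.mul tendsto_const_nhds)
  have hθ1 : Tendsto (fun k => θ k / a k) atTop (𝓝 0) := by
    have h1 := hθ.mul ha
    rw [mul_zero] at h1
    refine h1.congr fun k => ?_
    have h5 := ha0 k
    field_simp
  have hθ0 : Tendsto θ atTop (𝓝 0) := by
    have h1 := hθ1.mul ha
    rw [mul_zero] at h1
    refine h1.congr fun k => ?_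
    exact div_mul_cancel₀ _ (ha0 k)
  -- the pairings with the derivatives
  have hb0 := fun k => lim9_b hF dE0 dY0 (T k) (hc k).symm (hc k).hFF (hc k).hYF0 hz
  have hb1 := fun k => lim9_b hF dE1 dY1 (T k) (hc k).symm (hc k).hFF (hc k).hYF1 hz
  have hEE : E0 z * E1 z ≠ 0 := mul_ne_zero hE0 hE1
  -- degree 2, first step
  have hp : Tendsto (fun k => T k (F z) (iteratedDeriv 2 F z) / a k) atTop
      (𝓝 (-(E0 z * T0 (Dq z) (iteratedDeriv 2 F z)) / (E0 z * E1 z))) := by
    have h1 : Tendsto (fun k => (-(θ k / a k ^ 2 * (E0 z * iteratedDeriv 3 E1 z -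
        E1 (z + a k) * iteratedDeriv 3 E0 z)) - E0 z * T k (Dq (z + a k)) (iteratedDeriv 2 F z)) /
        (E0 z * E1 z)) atTop
        (𝓝 ((-(0 * (E0 z * iteratedDeriv 3 E1 z - E1 z * iteratedDeriv 3 E0 z)) -
          E0 z * T0 (Dq z) (iteratedDeriv 2 F z)) / (E0 z * E1 z))) :=
      (((hθ.mul (tendsto_const_nhds.sub (hEk.mul tendsto_const_nhds))).neg).sub
        ((hTT _ hDk).const_mul (E0 z))).div_const _
    rw [zero_mul, neg_zero, zero_sub] at h1
    refine h1.congr fun k => ?_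
    have h4 := hR k (iteratedDeriv 2 F z)
    rw [(hb1 k).1, (hb0 k).1] at h4
    have h5 := ha0 k
    field_simp
    linear_combination -h4
  have hP2 : Tendsto (fun k => T k (F z) (iteratedDeriv 2 F z)) atTop (𝓝 0) := by
    have h1 := hp.mul ha
    rw [mul_zero] at h1
    refine h1.congr fun k => ?_
    exact div_mul_cancel₀ _ (ha0 k)
  -- the degrees two, three and four of the limit
  have hk0 : ∀ j, lim9_tt T0 F 0 j z = T0 (F z) (iteratedDeriv j F z) := by
    intro j
    unfold lim9_tt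
    rw [iteratedDeriv_zero]
  have t02 : lim9_tt T0 F 0 2 z = 0 := by rw [hk0]; exact hP2'
  have t03 : lim9_tt T0 F 0 3 z = 0 := by rw [hk0]; exact hP3'
  have t04 : lim9_tt T0 F 0 4 z = 0 := by rw [hk0]; exact hP4'
  have t12 : lim9_tt T0 F 1 2 z = 0 := by
    have h1 := c3 z hz
    rw [t03] at h1
    linear_combination h1 / 3
  have hd0 := lim9_b hF dE0 dY0 T0 hsym0 hFF0 hC0.hYF0 hz
  have hd1 := lim9_b hF dE1 dY1 T0 hsym0 hFF0 hC0.hYF1 hz
  have hZv : ∀ v, E0 z * T0 (Y1 z) v - E1 z * T0 (Y0 z) v = 0 := by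
    intro v
    have h1 := congrArg (fun L : V m →L[ℂ] ℂ => L v) hZ0
    simp only [map_sub, map_smul, sub_apply, smul_apply, smul_eq_mul, zero_apply] at h1
    exact h1
  have t13 : lim9_tt T0 F 1 3 z = 0 := by
    have h1 := hZv (iteratedDeriv 6 F z)
    rw [hd0.2.2.2.1, hd1.2.2.2.1, t02, t03, t12, t04] at h1
    have h2 := c4 z hz
    rw [t04] at h2
    have h3 : (E0 z * deriv E1 z - E1 z * deriv E0 z) * (4 * lim9_tt T0 F 1 3 z) = 0 := by
      linear_combination -h1 - (E0 z * deriv E1 z - E1 z * deriv E0 z) * h2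
    have h4 := (mul_eq_zero.mp h3).resolve_left hw
    linear_combination h4 / 4
  have t22 : lim9_tt T0 F 2 2 z = 0 := by
    have h2 := c4 z hz
    rw [t04, t13] at h2
    linear_combination h2 / 3
  -- convergence of the entries
  have htk : ∀ i j, Tendsto (fun k => lim9_tt (T k) F i j z) atTop (𝓝 (lim9_tt T0 F i j z)) :=
    fun i j => hTc _ _
  have hk0' : ∀ k j, lim9_tt (T k) F 0 j z = T k (F z) (iteratedDeriv j F z) := by
    intro k j
    unfold lim9_tt
    rw [iteratedDeriv_zero]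
  -- degree 2
  have hp0 : Tendsto (fun k => lim9_tt (T k) F 0 2 z / a k) atTop (𝓝 0) := by
    have h1 : T0 (Dq z) (iteratedDeriv 2 F z) = 0 := by
      have h2 := congrArg (fun v => T0 v (iteratedDeriv 2 F z)) hD3
      simp only [map_add, map_smul, add_apply, smul_apply, smul_eq_mul] at h2
      rw [hP2'] at h2
      have h3 : T0 (iteratedDeriv 1 F z) (iteratedDeriv 2 F z) = 0 := t12
      rw [h3] at h2
      linear_combination h2 / 2
    rw [h1, mul_zero, neg_zero, zero_div] at hp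
    refine hp.congr fun k => ?_
    rw [hk0']
  -- degree 3
  have hq0 : Tendsto (fun k => lim9_tt (T k) F 0 3 z / a k) atTop (𝓝 0) := by
    have h1 : T0 (Dq z) (iteratedDeriv 3 F z) = 0 := by
      have h2 := congrArg (fun v => T0 v (iteratedDeriv 3 F z)) hD3
      simp only [map_add, map_smul, add_apply, smul_apply, smul_eq_mul] at h2
      rw [hP3'] at h2
      have h3 : T0 (iteratedDeriv 1 F z) (iteratedDeriv 3 F z) = 0 := t13
      rw [h3] at h2
      linear_combination h2 / 2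
    have h2 : Tendsto (fun k => (-(θ k / a k ^ 2 * (E0 z * iteratedDeriv 4 E1 z -
        E1 (z + a k) * iteratedDeriv 4 E0 z)) -
        E0 z * (lim9_tt (T k) F 0 2 z / a k) * ((a k)⁻¹ * (E1 (z + a k) - E1 z)) -
        E0 z * T k (Dq (z + a k)) (iteratedDeriv 3 F z)) / (E0 z * E1 z)) atTop
        (𝓝 ((-(0 * (E0 z * iteratedDeriv 4 E1 z - E1 z * iteratedDeriv 4 E0 z)) -
          E0 z * 0 * deriv E1 z - E0 z * T0 (Dq z) (iteratedDeriv 3 F z)) / (E0 z * E1 z))) :=
      ((((hθ.mul (tendsto_const_nhds.sub (hEk.mul tendsto_const_nhds))).neg).sub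
        ((hp0.const_mul (E0 z)).mul hδ)).sub ((hTT _ hDk).const_mul (E0 z))).div_const _
    have h3 : (-(0 * (E0 z * iteratedDeriv 4 E1 z - E1 z * iteratedDeriv 4 E0 z)) -
          E0 z * 0 * deriv E1 z - E0 z * T0 (Dq z) (iteratedDeriv 3 F z)) / (E0 z * E1 z) = 0 := by
      rw [h1]
      ring
    rw [h3] at h2
    refine h2.congr fun k => ?_
    have h4 := hR k (iteratedDeriv 3 F z)
    rw [(hb1 k).2.1, (hb0 k).2.1, ← hk0'] at h4
    have h5 := ha0 k
    field_simp
    linear_combination -h4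
  -- degree 5
  have t05 : lim9_tt T0 F 0 5 z = 0 := by
    have h2 : Tendsto (fun k => (-(θ k / a k * (E0 z * iteratedDeriv 6 E1 z -
        E1 (z + a k) * iteratedDeriv 6 E0 z)) +
        lim9_tt (T k) F 0 2 z / a k *
          (E0 z * iteratedDeriv 2 E1 z - E1 (z + a k) * iteratedDeriv 2 E0 z) +
        7 / 3 * (lim9_tt (T k) F 0 3 z / a k) *
          (E0 z * deriv E1 z - E1 (z + a k) * deriv E0 z) -
        E0 z * (lim9_tt (T k) F 2 2 z + 3 * lim9_tt (T k) F 1 3 z + 3 * lim9_tt (T k) F 0 4 z) *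
          ((a k)⁻¹ * (E1 (z + a k) - E1 z)) -
        a k * (E0 z * T k (Dq (z + a k)) (iteratedDeriv 5 F z))) / (E0 z * E1 z)) atTop
        (𝓝 ((-(0 * (E0 z * iteratedDeriv 6 E1 z - E1 z * iteratedDeriv 6 E0 z)) +
          0 * (E0 z * iteratedDeriv 2 E1 z - E1 z * iteratedDeriv 2 E0 z) +
          7 / 3 * 0 * (E0 z * deriv E1 z - E1 z * deriv E0 z) -
          E0 z * (lim9_tt T0 F 2 2 z + 3 * lim9_tt T0 F 1 3 z + 3 * lim9_tt T0 F 0 4 z) *
            deriv E1 z -
          0 * (E0 z * T0 (Dq z) (iteratedDeriv 5 F z))) / (E0 z * E1 z))) :=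
      ((((((hθ1.mul (tendsto_const_nhds.sub (hEk.mul tendsto_const_nhds))).neg).add
        (hp0.mul (tendsto_const_nhds.sub (hEk.mul tendsto_const_nhds)))).add
        ((hq0.const_mul (7 / 3)).mul (tendsto_const_nhds.sub (hEk.mul tendsto_const_nhds)))).sub
        (((((htk 2 2).add ((htk 1 3).const_mul 3)).add
          ((htk 0 4).const_mul 3)).const_mul (E0 z)).mul hδ)).sub
        (ha.mul ((hTT _ hDk).const_mul (E0 z)))).div_const _
    rw [t22, t13, t04] at h2
    have h3 : (-(0 * (E0 z * iteratedDeriv 6 E1 z - E1 z * iteratedDeriv 6 E0 z)) +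
          0 * (E0 z * iteratedDeriv 2 E1 z - E1 z * iteratedDeriv 2 E0 z) +
          7 / 3 * 0 * (E0 z * deriv E1 z - E1 z * deriv E0 z) -
          E0 z * (0 + 3 * 0 + 3 * 0) * deriv E1 z -
          0 * (E0 z * T0 (Dq z) (iteratedDeriv 5 F z))) / (E0 z * E1 z) = 0 := by ring
    rw [h3] at h2
    refine tendsto_nhds_unique (htk 0 5) (h2.congr fun k => ?_)
    have h4 := hR k (iteratedDeriv 5 F z)
    rw [(hb1 k).2.2.1, (hb0 k).2.2.1, ← hk0'] at h4
    have h6 := (lim9_a hF (T k) (hc k).symm (hc k).hFF).2.2.2.1 z hz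
    have h5 := ha0 k
    have h7 : lim9_tt (T k) F 1 2 z = -(lim9_tt (T k) F 0 3 z) / 3 := by
      linear_combination h6 / 3
    rw [h7] at h4
    field_simp
    field_simp at h4
    linear_combination -h4
  have h23 : lim9_tt T0 F 2 3 z = 0 ∧ lim9_tt T0 F 1 4 z = 0 := by
    have h1 := hZv (iteratedDeriv 7 F z)
    rw [hd0.2.2.2.2, hd1.2.2.2.2, t02, t03, t12, t04, t13, t22, t05] at h1
    have h2 := c5 z hz
    rw [t05] at h2
    have h3 : (E0 z * deriv E1 z - E1 z * deriv E0 z) *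
        (19 * lim9_tt T0 F 2 3 z + 20 * lim9_tt T0 F 1 4 z) = 0 := by
      linear_combination -h1
    have h4 := (mul_eq_zero.mp h3).resolve_left hw
    constructor
    · linear_combination -h4 / 21 + 4 / 21 * h2
    · linear_combination 2 / 21 * h4 - 19 / 105 * h2
  obtain ⟨t23, t14⟩ := h23
  have t11 : lim9_tt T0 F 1 1 z = 0 := by
    have h1 := c2 z hz
    rw [t02] at h1
    linear_combination h1
  have t00 := c0 z hz
  have t01 := c1 z hz
  have sy := fun i j => lim9_sym (F := F) hsym0 i j z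
  intro i j hij
  show lim9_tt T0 F i j z = 0
  wlog hle : i ≤ j generalizing i j with H
  · rw [sy]
    exact H j i (by omega) (by omega)
  have hi : i ≤ 2 := by omega
  interval_cases i
  · have hj : j ≤ 5 := by omega
    interval_cases j
    · exact t00
    · exact t01
    · exact t02
    · exact t03
    · exact t04
    · exact t05
  · have hj : j ≤ 4 := by omega
    interval_cases j
    · exact t11
    · exact t12
    · exact t13
    · exact t14
  · have hj : j ≤ 3 := by omega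
    interval_cases j
    · exact t22
    · exact t23

end Stek.Sv
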