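import Pool.Agent.H.MP_fc2485_gt.Sv9.Defs9
import Pool.Agent.H.MP_fc2485_gt.Sv9.Lim9

/-!
Limit forms at all points of the closed rectangle.

At `z ∈ c.O` with `E0, E1` and the Wronskian not zero: covering forms for `(z + a_k, z)` of norm one
(`cov_reach`, `F8B_norm`), a convergent subsequence, `limit_order`, `limit_order9` and `F8B_comp`
exactly as in `coprop_ne8` (F8B); `iteratedDeriv j (Fv c.φ e 0) z = Fv c.φ e j z` in the interior
(`hasDerivAt_Fv`). Such points are dense in `c.O` (`F7B_wron` in every small disc, then the zeros of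
the three holomorphic functions are isolated, or argue as in Gen8), and `c.O` is dense in `c.K`; the
set of the points `z ∈ c.K` with a form is closed in `c.K` (the unit sphere of `Bl m` is compact,
`BC M e` and the conditions are closed, everything is continuous on `c.K`; the boundary value of a
limit of forms with boundary value zero is zero).
-/

set_option maxSynthPendingDepth 3

open Set Filter Topology InnerProductSpace
open scoped ContDiff

namespace Stek.Sv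

open Stek Surface GCell

variable {S : Type*} [TopologicalSpace S] {M : Surface S} {σ : ℝ} {m : ℕ} {e : Fin m → S → ℝ}
  {G : Bl m}

private theorem int9_im (c : GCell M e G) {z : ℂ} (hz : z ∈ c.O) : 0 < z.im := by
  have h : (⟨c.a, c.c⟩ : ℂ) ∈ c.φ.map.target :=
    c.sub ⟨le_refl _, c.hab.le, le_refl _, c.hcd.le⟩
  rw [c.φ.target_eq] at h
  have h3 : 0 ≤ c.c := h.2
  exact h3.trans_lt hz.2.2.1

private theorem int9_iter (H : Ctx M σ e G) (c : GCell M e G) (n : ℕ) :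
    ∀ z ∈ c.O, iteratedDeriv n (Fv c.φ e 0) z = Fv c.φ e n z := by
  induction n with
  | zero =>
    intro z _
    rw [iteratedDeriv_zero]
  | succ n ih =>
    intro z hz
    rw [iteratedDeriv_succ]
    have h1 : iteratedDeriv n (Fv c.φ e 0) =ᶠ[𝓝 z] Fv c.φ e n := by
      filter_upwards [(isOpen_RectI c.a c.b c.c c.d).mem_nhds hz] with w hw
      exact ih w hw
    rw [h1.deriv_eq]
    exact (hasDerivAt_Fv H.mem c.hφ n (c.sub (RectI_sub _ _ _ _ hz)) (int9_im c hz)).deriv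

private theorem int9_closed : IsClosed ((BC M e : Submodule ℂ (Bl m)) : Set (Bl m)) :=
  Submodule.closed_of_finiteDimensional _

theorem lt_generic [ConnectedSpace S] (H : Ctx M σ e G) (hcov : Covd M e)
    {C C' : Set S} (hC : IsCC M C) (hC' : IsCC M C') (hne : C ≠ C') {c c' : GCell M e G}
    (hc : Reach C c) (hc' : Reach C' c') (hs : Same c c') {z : ℂ} (hz : z ∈ c.O)
    (hE0 : c'.E z ≠ 0) (hE1 : c.E z ≠ 0) (hw : wr c c' z ≠ 0) : ∃ T : Bl m, Lt c c' z T := by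
  obtain ⟨r, hr, hball⟩ := Metric.mem_nhds_iff.mp
    ((isOpen_RectI c.a c.b c.c c.d).mem_nhds hz)
  have hφ := hs.eφ
  have hO : Metric.ball z r ⊆ c.O := hball
  have hO' : Metric.ball z r ⊆ c'.O := by
    rw [← hs.O]
    exact hO
  have hz' : z ∈ Metric.ball z r := Metric.mem_ball_self hr
  have dE2 : ∀ s ∈ Metric.ball z r, HasDerivAt c'.E (G (c'.Y s) (Fv c.φ e 0 s)) s :=
    fun s hs => by
      rw [hφ]
      exact c'.dEat (hO' hs)
  have dY2 : ∀ s ∈ Metric.ball z r, HasDerivAt c'.Y (c'.E s • Fv c.φ e 0 s) s := fun s hs => by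
    rw [hφ]
    exact c'.dYat (hO' hs)
  have dE1 : ∀ s ∈ Metric.ball z r, HasDerivAt c.E (G (c.Y s) (Fv c.φ e 0 s)) s :=
    fun s hs => c.dEat (hO hs)
  have dY1 : ∀ s ∈ Metric.ball z r, HasDerivAt c.Y (c.E s • Fv c.φ e 0 s) s :=
    fun s hs => c.dYat (hO hs)
  have hF : DifferentiableOn ℂ (Fv c.φ e 0) (Metric.ball z r) :=
    (Props_niceF H c).holo.mono hO
  have hw' : c'.E z * deriv c.E z - c.E z * deriv c'.E z ≠ 0 := by
    rw [(dE1 z hz').deriv, (dE2 z hz').deriv]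
    exact hw
  have D : Two z r (Fv c.φ e 0) c'.Y c.Y c'.E c.E :=
    ⟨hr, hF, fun s hs => (dE2 s hs).differentiableAt.differentiableWithinAt,
      fun s hs => (dE1 s hs).differentiableAt.differentiableWithinAt,
      dY2, dY1, hE0, hE1, hw'⟩
  let a : ℕ → ℂ := fun k => ((r / (k + 2) : ℝ) : ℂ)
  have ha0 : ∀ k, a k ≠ 0 := by
    intro k
    have : (0 : ℝ) < r / (k + 2) := by positivity
    simp only [a]
    exact_mod_cast this.ne'
  have hta : Tendsto a atTop (𝓝 0) := by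
    have h1 : Tendsto (fun k : ℕ => r / ((k : ℝ) + 2)) atTop (𝓝 0) :=
      Tendsto.div_atTop tendsto_const_nhds
        (tendsto_atTop_add_const_right _ _ tendsto_natCast_atTop_atTop)
    have h2 := (Complex.continuous_ofReal.tendsto (0 : ℝ)).comp h1
    rw [Complex.ofReal_zero] at h2
    exact h2
  have hab : ∀ k, z + a k ∈ Metric.ball z r := by
    intro k
    rw [Metric.mem_ball, dist_eq_norm, add_sub_cancel_left]
    simp only [a]
    rw [Complex.norm_real, Real.norm_eq_abs, abs_of_pos (by positivity)]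
    rw [div_lt_iff₀ (by positivity)]
    have : (0 : ℝ) ≤ k := Nat.cast_nonneg k
    nlinarith
  have hcr := cov_reach H hcov hC hC' hne hc hc'
  choose T hT1 hT2 hT3 using fun k : ℕ => F8B_norm hcr
    (x := z + a k) (y := z) (RectI_sub _ _ _ _ (hO (hab k)))
    (RectI_sub _ _ _ _ (hO' hz'))
  choose θ hθ using fun k : ℕ => mem_BC.mp (hT1 k)
  have : ProperSpace (Bl m) := FiniteDimensional.proper ℂ (Bl m)
  obtain ⟨T0, hT0, ψ, hψ, hlim⟩ := (isCompact_sphere (0 : Bl m) 1).tendsto_subseq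
    (x := T) (fun k => by rw [mem_sphere_zero_iff_norm]; exact hT2 k)
  have hab' : ∀ k, z + (a ∘ ψ) k ∈ Metric.ball z r := fun k => hab (ψ k)
  have hc2 : ∀ k, Comp2 z r (Fv c.φ e 0) c'.Y c.Y c'.E c.E ((T ∘ ψ) k) ((θ ∘ ψ) k) :=
    fun k => F8B_comp H hC.sub hC'.sub hc hc' hφ hO hO' (hθ (ψ k))
  obtain ⟨l1, l2, -⟩ := limit_order D (a := a ∘ ψ) (hta.comp hψ.tendsto_atTop)
    (fun k => ha0 (ψ k)) hab' (T := T ∘ ψ) (θ := θ ∘ ψ) hlim hc2 (fun k => hT3 (ψ k))
  have l9 := limit_order9 D (a := a ∘ ψ) (hta.comp hψ.tendsto_atTop)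
    (fun k => ha0 (ψ k)) hab' (T := T ∘ ψ) (θ := θ ∘ ψ) hlim hc2 (fun k => hT3 (ψ k))
  have hmem : T0 ∈ BC M e :=
    int9_closed.mem_of_tendsto hlim (Eventually.of_forall fun k => hT1 (ψ k))
  obtain ⟨τ, hτ⟩ := mem_BC.mp hmem
  have hτ0 : τ = 0 := by
    have l3 := F8B_comp H hC.sub hC'.sub hc hc' hφ hO hO' hτ
    have h1 := l3.hYF0 z hz'
    rw [l1.hYF0 z hz', zero_mul] at h1
    have h2 := l3.hYF1 z hz'
    rw [l1.hYF1 z hz', zero_mul] at h2
    have h3 : τ * (c'.E z * deriv c.E z - c.E z * deriv c'.E z) = 0 := by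
      linear_combination c.E z * h1 - c'.E z * h2
    exact (mul_eq_zero.mp h3).resolve_right hw'
  subst hτ0
  refine ⟨T0, ?_, hτ, l2, ?_⟩
  · rwa [mem_sphere_zero_iff_norm] at hT0
  · intro i j hij
    rw [← int9_iter H c i z hz, ← int9_iter H c j z hz]
    exact l9 i j hij

/-- generic points are dense -/
private theorem int9_dense [ConnectedSpace S] (H : Ctx M σ e G) (hm2 : 2 ≤ m)
    (hnd : ∀ (D : V m) (φ : Chart S), φ ∈ M.charts → ∀ z ∈ φ.map.target, 0 < z.im →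
      (∀ᶠ w in 𝓝 z, ∀ Q, InK M e Q → Q D (Fv φ e 0 w) = 0) → D = 0)
    {C C' : Set S} (hC : IsCC M C) (hC' : IsCC M C') {c c' : GCell M e G}
    (hc : Reach C c) (hc' : Reach C' c') (hs : Same c c') (hno : ∀ z ∈ c.K, NoProp c c' z)
    {z : ℂ} (hz : z ∈ c.O) {ε : ℝ} (hε : 0 < ε) :
    ∃ s ∈ c.O, dist s z < ε ∧ c'.E s ≠ 0 ∧ c.E s ≠ 0 ∧ wr c c' s ≠ 0 := by
  obtain ⟨r, hr, hball⟩ := Metric.mem_nhds_iff.mp
    (inter_mem ((isOpen_RectI c.a c.b c.c c.d).mem_nhds hz) (Metric.ball_mem_nhds z hε))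
  have hφ := hs.eφ
  have hO : Metric.ball z r ⊆ c.O := fun s hs => (hball hs).1
  have hO' : Metric.ball z r ⊆ c'.O := by
    rw [← hs.O]
    exact hO
  obtain ⟨s0, hs0, hw0⟩ := F7B_wron H hm2 hnd hC.sub hC'.sub hc hc' hφ hr hO hO'
    (hno z (RectI_sub _ _ _ _ hz))
  have dE2 : ∀ s ∈ c.O, HasDerivAt c'.E (G (c'.Y s) (Fv c.φ e 0 s)) s := fun s hs' => by
    rw [hφ]
    rw [hs.O] at hs'
    exact c'.dEat hs'
  have dY2 : ∀ s ∈ c.O, HasDerivAt c'.Y (c'.E s • Fv c.φ e 0 s) s := fun s hs' => by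
    rw [hφ]
    rw [hs.O] at hs'
    exact c'.dYat hs'
  have dE1 : ∀ s ∈ c.O, HasDerivAt c.E (G (c.Y s) (Fv c.φ e 0 s)) s :=
    fun s hs => c.dEat hs
  have dY1 : ∀ s ∈ c.O, HasDerivAt c.Y (c.E s • Fv c.φ e 0 s) s :=
    fun s hs => c.dYat hs
  have hwc : ∀ s ∈ c.O, ContinuousAt (wr c c') s := by
    intro s hs'
    have hF : ContinuousAt (Fv c.φ e 0) s :=
      ((Props_niceF H c).holo.differentiableAt
        ((isOpen_RectI c.a c.b c.c c.d).mem_nhds hs')).continuousAt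
    have g1 : ContinuousAt (fun s => G (c.Y s) (Fv c.φ e 0 s)) s :=
      (G.continuous.continuousAt.comp (dY1 s hs').continuousAt).clm_apply hF
    have g2 : ContinuousAt (fun s => G (c'.Y s) (Fv c.φ e 0 s)) s :=
      (G.continuous.continuousAt.comp (dY2 s hs').continuousAt).clm_apply hF
    exact ((dE2 s hs').continuousAt.mul g1).sub ((dE1 s hs').continuousAt.mul g2)
  have hOn : ∀ s ∈ c.O, ∀ᶠ w in 𝓝 s, w ∈ c.O := fun s hs' =>
    (isOpen_RectI c.a c.b c.c c.d).mem_nhds hs'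
  -- the first function
  have hO0 : s0 ∈ c.O := hO hs0
  have hf0 : ∃ᶠ s in 𝓝 s0, c'.E s ≠ 0 := by
    intro hcon
    have hev : c'.E =ᶠ[𝓝 s0] fun _ => (0 : ℂ) := by
      filter_upwards [hcon] with s hs'
      exact not_not.mp hs'
    have h1 : G (c'.Y s0) (Fv c.φ e 0 s0) = 0 :=
      (dE2 s0 hO0).unique ((hasDerivAt_const s0 (0 : ℂ)).congr_of_eventuallyEq hev)
    apply hw0
    rw [h1, hev.self_of_nhds]
    ring
  obtain ⟨s1, hE01, hw1, hO1, hb1⟩ := (hf0.and_eventually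
    (((hwc s0 hO0).eventually_ne hw0).and ((hOn s0 hO0).and
      (Metric.isOpen_ball.eventually_mem hs0)))).exists
  have hf1 : ∃ᶠ s in 𝓝 s1, c.E s ≠ 0 := by
    intro hcon
    have hev : c.E =ᶠ[𝓝 s1] fun _ => (0 : ℂ) := by
      filter_upwards [hcon] with s hs'
      exact not_not.mp hs'
    have h1 : G (c.Y s1) (Fv c.φ e 0 s1) = 0 :=
      (dE1 s1 hO1).unique ((hasDerivAt_const s1 (0 : ℂ)).congr_of_eventuallyEq hev)
    apply hw1
    unfold wr
    rw [h1, hev.self_of_nhds]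
    ring
  obtain ⟨s2, hE12, hw2, hO2, hb2, hE02⟩ := (hf1.and_eventually
    (((hwc s1 hO1).eventually_ne hw1).and ((hOn s1 hO1).and
      ((Metric.isOpen_ball.eventually_mem hb1).and
        ((dE2 s1 hO1).continuousAt.eventually_ne hE01))))).exists
  exact ⟨s2, hO2, (hball hb2).2, hE02, hE12, hw2⟩

private theorem int9_closure {a b c d : ℝ} (hab : a < b) (hcd : c < d) :
    Rect a b c d ⊆ closure (RectI a b c d) := by
  have h : RectI a b c d = Ioo a b ×ℂ Ioo c d := by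
    ext z
    constructor
    · rintro ⟨h1, h2, h3, h4⟩
      exact ⟨⟨h1, h2⟩, ⟨h3, h4⟩⟩
    · rintro ⟨⟨h1, h2⟩, ⟨h3, h4⟩⟩
      exact ⟨h1, h2, h3, h4⟩
  rw [h, Complex.closure_reProdIm, closure_Ioo hab.ne, closure_Ioo hcd.ne]
  rintro z ⟨h1, h2, h3, h4⟩
  exact ⟨⟨h1, h2⟩, ⟨h3, h4⟩⟩

private theorem int9_apply {X Y : Type*} [NormedAddCommGroup X] [NormedSpace ℂ X]
    [NormedAddCommGroup Y] [NormedSpace ℂ Y] {f : ℕ → X →L[ℂ] Y} {f0 : X →L[ℂ] Y} {u : ℕ → X}
    {u0 : X} (hf : Tendsto f atTop (𝓝 f0)) (hu : Tendsto u atTop (𝓝 u0)) :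
    Tendsto (fun k => f k (u k)) atTop (𝓝 (f0 u0)) :=
  ((isBoundedBilinearMap_apply (𝕜 := ℂ) (E := X) (F := Y)).continuous.tendsto (f0, u0)).comp
    (hf.prodMk_nhds hu)

/-- limits of limit forms -/
private theorem int9_limit (H : Ctx M σ e G) {c c' : GCell M e G} (hs : Same c c') {z : ℂ}
    (hz : z ∈ c.K) {s : ℕ → ℂ} (hsO : ∀ k, s k ∈ c.K) (hsz : Tendsto s atTop (𝓝 z))
    {T : ℕ → Bl m} (hT : ∀ k, Lt c c' (s k) (T k)) {T0 : Bl m} (hlim : Tendsto T atTop (𝓝 T0)) :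
    Lt c c' z T0 := by
  have hK : Tendsto s atTop (𝓝[c.K] z) :=
    tendsto_nhdsWithin_iff.mpr ⟨hsz, Eventually.of_forall hsO⟩
  have hcK : c'.K = c.K := hs.K.symm
  have lY : Tendsto (fun k => c.Y (s k)) atTop (𝓝 (c.Y z)) :=
    ((Props_niceY c).cont z hz).tendsto.comp hK
  have lE : Tendsto (fun k => c.E (s k)) atTop (𝓝 (c.E z)) :=
    ((Props_niceE c).cont z hz).tendsto.comp hK
  have hz' : z ∈ Rect c'.a c'.b c'.c c'.d := by
    change z ∈ c'.K
    rwa [hcK]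
  have hK' : Tendsto s atTop (𝓝[Rect c'.a c'.b c'.c c'.d] z) := by
    change Tendsto s atTop (𝓝[c'.K] z)
    rwa [hcK]
  have lY' : Tendsto (fun k => c'.Y (s k)) atTop (𝓝 (c'.Y z)) :=
    ((Props_niceY c').cont z hz').tendsto.comp hK'
  have lE' : Tendsto (fun k => c'.E (s k)) atTop (𝓝 (c'.E z)) :=
    ((Props_niceE c').cont z hz').tendsto.comp hK'
  have lF : ∀ j, Tendsto (fun k => Fv c.φ e j (s k)) atTop (𝓝 (Fv c.φ e j z)) := fun j =>
    ((nice_Fv H.mem c.hφ j c.sub).cont z hz).tendsto.comp hK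
  have lT : ∀ {u v : ℕ → V m} {u0 v0 : V m}, Tendsto u atTop (𝓝 u0) → Tendsto v atTop (𝓝 v0) →
      Tendsto (fun k => T k (u k) (v k)) atTop (𝓝 (T0 u0 v0)) := fun hu hv =>
    int9_apply (int9_apply hlim hu) hv
  have lc : ∀ v : V m, Tendsto (fun _ : ℕ => v) atTop (𝓝 v) := fun v => tendsto_const_nhds
  refine ⟨?_, ⟨?_, ?_, ?_⟩, ?_, ?_⟩
  · have h1 := hlim.norm
    have h2 : Tendsto (fun k => ‖T k‖) atTop (𝓝 1) := by
      have : (fun k => ‖T k‖) = fun _ => (1 : ℝ) := funext fun k => (hT k).norm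
      rw [this]
      exact tendsto_const_nhds
    exact tendsto_nhds_unique h1 h2
  · intro v w
    have h1 := lT (lc v) (lc w)
    have h2 := lT (lc w) (lc v)
    refine tendsto_nhds_unique h1 (h2.congr fun k => ?_)
    exact (hT k).inB.symm w v
  · intro x hx
    refine tendsto_nhds_unique (lT (lc (uv e x)) (lc (uv e x))) ?_
    refine tendsto_const_nhds.congr fun k => ?_
    exact ((hT k).inB.sphere x hx).symm
  · intro φ hφ w hw
    refine tendsto_nhds_unique (lT (lc (Fv φ e 0 w)) (lc (Fv φ e 0 w))) ?_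
    refine tendsto_const_nhds.congr fun k => ?_
    exact ((hT k).inB.conf φ hφ w hw).symm
  · have h1 : Tendsto (fun k => c'.E (s k) • c.Y (s k) - c.E (s k) • c'.Y (s k)) atTop
        (𝓝 (c'.E z • c.Y z - c.E z • c'.Y z)) := (lE'.smul lY).sub (lE.smul lY')
    have h2 := int9_apply hlim h1
    refine tendsto_nhds_unique h2 ?_
    refine tendsto_const_nhds.congr fun k => ?_
    exact ((hT k).ker).symm
  · intro i j hij
    refine tendsto_nhds_unique (lT (lF i) (lF j)) ?_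
    refine tendsto_const_nhds.congr fun k => ?_
    exact ((hT k).ord i j hij).symm

theorem lt_all [ConnectedSpace S] (H : Ctx M σ e G) (hm2 : 2 ≤ m) (hcov : Covd M e)
    (hnd : ∀ (D : V m) (φ : Chart S), φ ∈ M.charts → ∀ z ∈ φ.map.target, 0 < z.im →
      (∀ᶠ w in 𝓝 z, ∀ Q, InK M e Q → Q D (Fv φ e 0 w) = 0) → D = 0)
    {C C' : Set S} (hC : IsCC M C) (hC' : IsCC M C') (hne : C ≠ C') {c c' : GCell M e G}
    (hc : Reach C c) (hc' : Reach C' c') (hs : Same c c') (hno : ∀ z ∈ c.K, NoProp c c' z) :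
    ∀ z ∈ c.K, ∃ T : Bl m, Lt c c' z T := by
  intro z hz
  have hcl : z ∈ closure c.O := int9_closure c.hab c.hcd hz
  have hex : ∀ k : ℕ, ∃ s ∈ c.O, dist s z < 2 / ((k : ℝ) + 1) ∧ ∃ T : Bl m, Lt c c' s T := by
    intro k
    have hk : (0 : ℝ) < 1 / ((k : ℝ) + 1) := by positivity
    obtain ⟨w, hw, hwd⟩ := Metric.mem_closure_iff.mp hcl _ hk
    obtain ⟨s, hs1, hs2, hE0, hE1, hwr⟩ := int9_dense H hm2 hnd hC hC' hc hc' hs hno hw hk
    refine ⟨s, hs1, ?_, lt_generic H hcov hC hC' hne hc hc' hs hs1 hE0 hE1 hwr⟩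
    have h1 := dist_triangle s w z
    rw [dist_comm w z] at h1
    have h2 : (2 : ℝ) / ((k : ℝ) + 1) = 1 / ((k : ℝ) + 1) + 1 / ((k : ℝ) + 1) := by ring
    linarith
  choose s hsO hsd T hT using hex
  have hsz : Tendsto s atTop (𝓝 z) := by
    rw [tendsto_iff_dist_tendsto_zero]
    refine squeeze_zero (fun k => dist_nonneg) (fun k => (hsd k).le) ?_
    exact Tendsto.div_atTop tendsto_const_nhds
      (tendsto_atTop_add_const_right _ _ tendsto_natCast_atTop_atTop)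
  have : ProperSpace (Bl m) := FiniteDimensional.proper ℂ (Bl m)
  obtain ⟨T0, -, ψ, hψ, hlim⟩ := (isCompact_sphere (0 : Bl m) 1).tendsto_subseq
    (x := T) (fun k => by rw [mem_sphere_zero_iff_norm]; exact (hT k).norm)
  exact ⟨T0, int9_limit H hs hz (s := s ∘ ψ) (fun k => RectI_sub _ _ _ _ (hsO (ψ k)))
    (hsz.comp hψ.tendsto_atTop) (T := T ∘ ψ) (fun k => hT (ψ k)) hlim⟩

end Stek.Sv
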