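import Pool.Agent.H.MP_fc2485_gt.Sv.Comp
import Pool.Agent.H.MP_fc2485_gt.Sv.MaxP
import Pool.Agent.H.MP_fc2485_gt.Sv9.Int9
import Pool.Agent.H.MP_fc2485_gt.Sv9.Arc9
import Pool.Agent.H.MP_fc2485_gt.Sv9.Base9
import Pool.Agent.H.MP_fc2485_gt.Sv9.Conj9
import Pool.Agent.H.MP_fc2485_gt.Sv9.Geo9

/-!
Case B is impossible for `m ≤ 9`.
-/

set_option maxSynthPendingDepth 3

open Set Filter Topology InnerProductSpace
open scoped ContDiff

namespace Stek.Sv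

open Stek Surface GCell

variable {S : Type*} [TopologicalSpace S] {M : Surface S} {σ : ℝ} {m : ℕ} {e : Fin m → S → ℝ}
  {G : Bl m}

/-- solutions along the real axis -/
private theorem F9B_real (c : GCell M e G) (hc0 : c.c = 0) {t : ℝ} (ht : t ∈ Ioo c.a c.b) :
    HasDerivAt (fun t : ℝ => c.Y (t : ℂ)) (c.E (t : ℂ) • Fv c.φ e 0 (t : ℂ)) t ∧
      HasDerivAt (fun t : ℝ => c.E (t : ℂ)) (G (c.Y (t : ℂ)) (Fv c.φ e 0 (t : ℂ))) t := by
  have hmem : ∀ s ∈ Ioo c.a c.b, (s : ℂ) ∈ Rect c.a c.b c.c c.d := by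
    intro s hs
    refine ⟨by simpa using hs.1.le, by simpa using hs.2.le, by simp [hc0], ?_⟩
    have := c.hcd
    rw [hc0] at this
    simpa using this.le
  have hev : ∀ᶠ s : ℝ in 𝓝 t, (s : ℂ) ∈ Rect c.a c.b c.c c.d := by
    filter_upwards [isOpen_Ioo.mem_nhds ht] with s hs using hmem s hs
  have key : ∀ {X : Type _} [NormedAddCommGroup X] [NormedSpace ℂ X] {f : ℂ → X} {f' : X},
      HasDerivWithinAt f f' (Rect c.a c.b c.c c.d) (t : ℂ) →
      HasDerivAt (fun t : ℝ => f (t : ℂ)) f' t := by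
    intro X _ _ f f' hf
    have h1 : HasFDerivWithinAt f
        (((1 : ℂ →L[ℂ] ℂ).smulRight f').restrictScalars ℝ) (Rect c.a c.b c.c c.d) (t : ℂ) :=
      hf.hasFDerivWithinAt.restrictScalars ℝ
    have h2 : HasDerivAt (fun t : ℝ => (t : ℂ)) 1 t := Complex.ofRealCLM.hasDerivAt
    have h3 := h1.comp_hasDerivAt t h2 hev
    exact h3.congr_deriv (by simp)
  exact ⟨key (c.sol.dY t (hmem t ht)), key (c.sol.dE t (hmem t ht))⟩

theorem coprop_ne9 [ConnectedSpace S] (H : Ctx M σ e G) (hm2 : 2 ≤ m) (hm : m ≤ 9)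
    (hcov : Covd M e)
    (hnd : ∀ (D : V m) (φ : Chart S), φ ∈ M.charts → ∀ z ∈ φ.map.target, 0 < z.im →
      (∀ᶠ w in 𝓝 z, ∀ Q, InK M e Q → Q D (Fv φ e 0 w) = 0) → D = 0)
    {C C' : Set S} (hC : IsCC M C) (hC' : IsCC M C') (hne : C ≠ C') {c c' : GCell M e G}
    (hc : Reach C c) (hc' : Reach C' c') : CoProp c c' := by
  rcases Nat.lt_or_ge m 9 with h8 | h9
  · exact coprop_ne8 H hm2 (by omega) hcov hnd hC hC' hne hc hc'
  have hm9 : m = 9 := le_antisymm hm h9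
  by_contra hno
  obtain ⟨c0, c0', hb, hr, hs, hn⟩ := exists_base_pair H hc hc' hno
  obtain ⟨a, b, hab, hI, hgen⟩ := exists_arc H hm9 hnd hC hC' hb hr hs hn
  have hIoo : ∀ t ∈ Ioo a b, t ∈ Ioo c0.a c0.b := fun t ht => hI ⟨ht.1.le, ht.2.le⟩
  have hK : ∀ t ∈ Ioo a b, (t : ℂ) ∈ c0.K := by
    intro t ht
    have h1 := hIoo t ht
    refine ⟨?_, ?_, ?_, ?_⟩
    · simpa using h1.1.le
    · simpa using h1.2.le
    · rw [hb.1]; simp
    · have := c0.hcd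
      rw [hb.1] at this
      simpa using this.le
  have hK' : ∀ t ∈ Ioo a b, (t : ℂ) ∈ c0'.K := fun t ht => hs.K ▸ hK t ht
  have hT : ∀ t ∈ Ioo a b, (t : ℂ) ∈ c0.φ.map.target := fun t ht => c0.sub (hK t ht)
  have hc0' : c0'.c = 0 := by rw [← hs.ec, hb.1]
  have hIoo' : ∀ t ∈ Ioo a b, t ∈ Ioo c0'.a c0'.b := by
    intro t ht
    rw [← hs.ea, ← hs.eb]
    exact hIoo t ht
  have hbase : ∀ t ∈ Ioo a b, c0.φ.map.symm (t : ℂ) ∈ C ∧
      c0.Y t = c0.E t • uv e (c0.φ.map.symm (t : ℂ)) ∧ ‖c0.E t‖ = 1 := fun t ht =>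
    hb.2 t ⟨(hIoo t ht).1.le, (hIoo t ht).2.le⟩
  refine geo_absurd (by omega : 3 ≤ m) H.inK.symm H.inK.real H.pd hab
    (u := fun t : ℝ => uv e (c0.φ.map.symm (t : ℂ))) (F := fun t : ℝ => Fv c0.φ e 0 (t : ℂ))
    (Y := fun t : ℝ => c0'.Y (t : ℂ)) (E := fun t : ℝ => c0'.E (t : ℂ))
    (l := fun t : ℝ => σ * c0.φ.ρ (t : ℂ)) ?_ ?_ ?_ ?_ ?_ ?_ ?_ ?_ ?_ ?_ ?_
  · intro t _
    exact maxP_star_uv _
  · intro t ht
    exact (mul_pos H.hσ (c0.φ.ρ_pos _ (hT t ht))).ne'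
  · intro t ht
    exact H.inK.sphere _ (hC.sub (hbase t ht).1)
  · intro t ht
    have h1 := hasDerivAt_uv H.mem c0.hφ (hT t ht)
    refine h1.congr_deriv ?_
    push_cast
    rfl
  · intro t ht
    have h1 := (F9B_real c0' hc0' (hIoo' t ht)).1
    rwa [← hs.eφ] at h1
  · intro t ht
    have h1 := (F9B_real c0' hc0' (hIoo' t ht)).2
    rwa [← hs.eφ] at h1
  · intro t ht
    have h1 := quad H hC'.sub hr H.inK.inB (t : ℂ) (hK' t ht)
    rwa [one_mul] at h1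
  · intro t ht
    exact (hgen t ht).1
  · intro t ht
    have h1 := (hgen t ht).2.2
    have h2 := h1.comp (![0, 1] : Fin 2 → Fin 9) (by decide)
    have he : vecB c0 c0' (t : ℂ) ∘ (![0, 1] : Fin 2 → Fin 9) =
        ![c0'.E t • c0.Y t - c0.E t • c0'.Y t, c0'.Y t] := by
      funext i
      fin_cases i <;> rfl
    rw [he] at h2
    rw [LinearIndependent.pair_iff] at h2 ⊢
    intro x y hxy
    obtain ⟨-, k1, k2⟩ := hbase t ht
    have hE1 : c0.E t ≠ 0 := by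
      intro h0
      rw [h0, norm_zero] at k2
      exact zero_ne_one k2
    have hE0 := (hgen t ht).1
    have h3 := h2 x (x * c0.E t + y * c0'.E t * c0.E t) (by
      rw [k1]
      have h4 : x • (c0'.E t • c0.E t • uv e (c0.φ.map.symm (t : ℂ)) - c0.E t • c0'.Y t) +
          (x * c0.E t + y * c0'.E t * c0.E t) • c0'.Y t =
          (c0'.E t * c0.E t) • (x • uv e (c0.φ.map.symm (t : ℂ)) + y • c0'.Y t) := by
        module
      rw [h4]
      have h5 : x • uv e (c0.φ.map.symm (t : ℂ)) + y • c0'.Y t = 0 := hxy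
      rw [h5, smul_zero])
    refine ⟨h3.1, ?_⟩
    have h6 := h3.2
    rw [h3.1, zero_mul, zero_add] at h6
    rcases mul_eq_zero.mp h6 with h7 | h7
    · rcases mul_eq_zero.mp h7 with h8 | h8
      · exact h8
      · exact absurd h8 hE0
    · exact absurd h7 hE1
  · intro t ht
    obtain ⟨T, hT⟩ := lt_all H hm2 hcov hnd hC hC' hne (Reach.base hb) hr hs hn (t : ℂ) (hK t ht)
    exact star_mem H hm9 hC hC' hb hr hs (hIoo t ht) (hgen t ht).1 (hgen t ht).2.1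
      (hgen t ht).2.2 hT
  · intro ξ t0 ht0 hξ
    exact span_uv H.mem H.ind c0.hφ (hT t0 ht0) ξ hξ

end Stek.Sv
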