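import Pool.Agent.H.MP_fc2485_gt.Sv8.Final8
import Pool.Agent.H.MP_fc2485_gt.Sv9.F9B

/-!
The separation theorem for eigenspaces of dimension at most nine.
-/

set_option maxSynthPendingDepth 3

open Set Filter Topology InnerProductSpace
open scoped ContDiff

namespace Stek.Sv

open Stek Surface GCell

variable {S : Type*} [TopologicalSpace S] {M : Surface S} {σ : ℝ} {m : ℕ} {e : Fin m → S → ℝ}
  {G : Bl m}

theorem not_PM9 [CompactSpace S] [T2Space S] [ConnectedSpace S] {M : Surface S} {σ : ℝ}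
    (hσ : 0 < σ) (hmir : MirC M) (h2 : ∃ C C', IsCC M C ∧ IsCC M C' ∧ C ≠ C') {n : ℕ}
    (hn : n ≤ 9) : ¬ PM M σ n := by
  intro hP
  obtain ⟨m, hmn, hm2, e, G, H, hcov, hnd⟩ := min_data hσ hmir h2 hP
  rcases Nat.lt_or_ge m 8 with h7 | h8
  · exact not_PM hσ hmir h2 (n := m) (by omega) ⟨e, H.mem, H.ind, hcov⟩
  have hp := coprop_of_ne H h2 fun C C' hC hC' hne c c' hc hc' =>
    coprop_ne9 H hm2 (hmn.trans hn) hcov hnd hC hC' hne hc hc'
  obtain ⟨C, -, hC, -, -⟩ := id h2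
  obtain ⟨p, hpb, -⟩ := id hC
  exact Ca.caseA_absurd H (by omega) hp ⟨p, hpb⟩

theorem separated9 [CompactSpace S] [T2Space S] [ConnectedSpace S] (M : Surface S) {σ : ℝ}
    (hσ : 0 < σ) (hdim : Module.rank ℝ (M.eigenspace σ) ≤ 9)
    (h2 : ∃ p ∈ M.bdry, ∃ q ∈ M.bdry,
      connectedComponentIn M.bdry p ≠ connectedComponentIn M.bdry q) :
    ∃ p ∈ M.bdry, ∃ q ∈ M.bdry,
      connectedComponentIn M.bdry p ≠ connectedComponentIn M.bdry q ∧ M.Separated σ p q := by
  by_contra hno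
  push Not at hno
  obtain ⟨M', hmir, hbd, heig, hfree⟩ := exists_dbl M
  have hdim' : Module.rank ℝ (M'.eigenspace σ) ≤ 9 := by
    rw [heig]
    exact hdim
  have hfin : Module.Finite ℝ (M'.eigenspace σ) := by
    rw [← Module.rank_lt_aleph0_iff]
    exact lt_of_le_of_lt hdim' (by exact_mod_cast Cardinal.natCast_lt_aleph0 (n := 9))
  have hrank : Module.finrank ℝ (M'.eigenspace σ) ≤ 9 :=
    Module.finrank_le_of_rank_le (by exact_mod_cast hdim')
  let b := Module.finBasis ℝ (M'.eigenspace σ)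
  have h2' : ∃ C C', IsCC M' C ∧ IsCC M' C' ∧ C ≠ C' := by
    obtain ⟨p, hp, q, hq, hne⟩ := h2
    refine ⟨_, _, ⟨p, ?_, rfl⟩, ⟨q, ?_, rfl⟩, ?_⟩
    · rw [hbd]; exact hp
    · rw [hbd]; exact hq
    · rw [hbd]; exact hne
  refine not_PM9 hσ hmir h2' hrank ⟨fun i => (b i : S → ℝ), fun i => (b i).2, ?_, ?_⟩
  · exact b.linearIndependent.map' (M'.eigenspace σ).subtype (Submodule.ker_subtype _)
  · intro C C' hC hC' hne p hp q hq
    apply covered_of_not_separated b
    obtain ⟨p0, hp0, rfl⟩ := hC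
    obtain ⟨q0, hq0, rfl⟩ := hC'
    have hpb := connectedComponentIn_subset _ _ hp
    have hqb := connectedComponentIn_subset _ _ hq
    rw [connectedComponentIn_eq hp, connectedComponentIn_eq hq, hbd] at hne
    rw [hbd] at hpb hqb
    have h3 := hno p hpb q hqb hne
    intro h4
    exact h3 fun n Φ hΦ => h4 n Φ (hfree σ n Φ hΦ)

end Stek.Sv
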