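import Pool.Agent.H.MP_fc2485_gt.Sv9.Defs9

/-!
Taylor coefficients of smooth functions of the real variable.
-/

set_option maxSynthPendingDepth 3

open Set Filter Topology InnerProductSpace Finset
open scoped ContDiff

namespace Stek.Sv

open Stek Surface GCell

/-- `x n` is the `n`-th Taylor coefficient (as a function of the point) of `x 0` on `I` -/
def IsJet {X : Type*} [NormedAddCommGroup X] [NormedSpace ℂ X] (I : Set ℝ) (x : ℕ → ℝ → X) : Prop :=
  ∀ n, ∀ t ∈ I, HasDerivAt (x n) (((n : ℂ) + 1) • x (n + 1) t) t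

variable {I : Set ℝ} {m : ℕ}

private theorem Jet9_sum {X : Type*} [AddCommGroup X] [Module ℂ X] (b : ℕ → ℕ → X) (n : ℕ) :
    ∑ p ∈ antidiagonal n, (((p.2 : ℂ) + 1) • b p.1 (p.2 + 1) + ((p.1 : ℂ) + 1) • b (p.1 + 1) p.2)
      = ((n : ℂ) + 1) • ∑ p ∈ antidiagonal (n + 1), b p.1 p.2 := by
  have h1 : ((n : ℂ) + 1) • ∑ p ∈ antidiagonal (n + 1), b p.1 p.2 =
      ∑ p ∈ antidiagonal (n + 1), (p.2 : ℂ) • b p.1 p.2 +
        ∑ p ∈ antidiagonal (n + 1), (p.1 : ℂ) • b p.1 p.2 := by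
    rw [smul_sum, ← sum_add_distrib]
    refine sum_congr rfl fun p hp => ?_
    have h2 : (p.1 : ℂ) + p.2 = n + 1 := by exact_mod_cast mem_antidiagonal.1 hp
    rw [← add_smul, ← h2, add_comm]
  rw [h1, Finset.Nat.sum_antidiagonal_succ' (f := fun p => (p.2 : ℂ) • b p.1 p.2),
    Finset.Nat.sum_antidiagonal_succ (f := fun p => (p.1 : ℂ) • b p.1 p.2)]
  simp [sum_add_distrib]

private theorem Jet9_conv {X Y Z : Type*} [NormedAddCommGroup X] [NormedSpace ℂ X]
    [NormedAddCommGroup Y] [NormedSpace ℂ Y] [NormedAddCommGroup Z] [NormedSpace ℂ Z]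
    (b : X → Y → Z) (h1 : ∀ (k : ℂ) x y, b (k • x) y = k • b x y)
    (h2 : ∀ (k : ℂ) x y, b x (k • y) = k • b x y) {t : ℝ}
    (hb : ∀ (f : ℝ → X) (g : ℝ → Y) (f' : X) (g' : Y), HasDerivAt f f' t → HasDerivAt g g' t →
      HasDerivAt (fun s => b (f s) (g s)) (b (f t) g' + b f' (g t)) t)
    {x : ℕ → ℝ → X} {y : ℕ → ℝ → Y} {n : ℕ}
    (hx : ∀ i ≤ n, HasDerivAt (x i) (((i : ℂ) + 1) • x (i + 1) t) t)
    (hy : ∀ i ≤ n, HasDerivAt (y i) (((i : ℂ) + 1) • y (i + 1) t) t) :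
    HasDerivAt (fun s => ∑ p ∈ antidiagonal n, b (x p.1 s) (y p.2 s))
      (((n : ℂ) + 1) • ∑ p ∈ antidiagonal (n + 1), b (x p.1 t) (y p.2 t)) t := by
  rw [← Jet9_sum (fun i j => b (x i t) (y j t)) n]
  refine HasDerivAt.fun_sum fun p hp => ?_
  have h3 := mem_antidiagonal.1 hp
  have h4 := hb _ _ _ _ (hx p.1 (by omega)) (hy p.2 (by omega))
  rw [h1, h2] at h4
  exact h4

/-- the jet of the zero function -/
theorem jet_zero {X : Type*} [NormedAddCommGroup X] [NormedSpace ℂ X] (hI : IsOpen I)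
    {x : ℕ → ℝ → X} (hx : IsJet I x) (h0 : ∀ t ∈ I, x 0 t = 0) : ∀ n, ∀ t ∈ I, x n t = 0 := by
  intro n
  induction n with
  | zero => exact h0
  | succ n ih =>
    intro t ht
    have h1 : HasDerivAt (fun _ : ℝ => (0 : X)) (((n : ℂ) + 1) • x (n + 1) t) t := by
      refine (hx n t ht).congr_of_eventuallyEq ?_
      filter_upwards [hI.mem_nhds ht] with s hs
      exact (ih s hs).symm
    have h2 := h1.unique (hasDerivAt_const t (0 : X))
    rcases smul_eq_zero.1 h2 with h3 | h3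
    · exact absurd h3 (Nat.cast_add_one_ne_zero n)
    · exact h3

theorem jet_smul {X : Type*} [NormedAddCommGroup X] [NormedSpace ℂ X] {ε : ℕ → ℝ → ℂ}
    {x : ℕ → ℝ → X} (hε : IsJet I ε) (hx : IsJet I x) :
    IsJet I fun n t => ∑ p ∈ antidiagonal n, ε p.1 t • x p.2 t := by
  intro n t ht
  refine Jet9_conv (fun (k : ℂ) (v : X) => k • v) (fun k x y => by simp [mul_smul])
    (fun k x y => smul_comm _ _ _) (fun f g f' g' hf hg => hf.fun_smul hg)
    (fun i _ => hε i t ht) (fun i _ => hx i t ht)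

theorem jet_bil (Q : Bl m) {x y : ℕ → ℝ → V m} (hx : IsJet I x) (hy : IsJet I y) :
    IsJet I fun n t => ∑ p ∈ antidiagonal n, Q (x p.1 t) (y p.2 t) := by
  intro n t ht
  refine Jet9_conv (fun x y : V m => Q x y) (fun k x y => by simp)
    (fun k x y => by simp) (fun f g f' g' hf hg => starB_hd Q hf hg)
    (fun i _ => hx i t ht) (fun i _ => hy i t ht)

theorem jet_star {x : ℕ → ℝ → V m} (hx : IsJet I x) : IsJet I fun n t => star (x n t) := by
  intro n t ht
  have h1 := (hx n t ht).star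
  refine h1.congr_deriv ?_
  rw [star_smul]
  congr 1
  simp

theorem jet_sub {X : Type*} [NormedAddCommGroup X] [NormedSpace ℂ X] {x y : ℕ → ℝ → X}
    (hx : IsJet I x) (hy : IsJet I y) : IsJet I fun n t => x n t - y n t := by
  intro n t ht
  refine ((hx n t ht).fun_sub (hy n t ht)).congr_deriv ?_
  rw [smul_sub]

theorem jet_const_smul {X : Type*} [NormedAddCommGroup X] [NormedSpace ℂ X] {x : ℕ → ℝ → X}
    (k : ℂ) (hx : IsJet I x) : IsJet I fun n t => k • x n t := by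
  intro n t ht
  refine ((hx n t ht).fun_const_smul k).congr_deriv ?_
  rw [smul_comm]

/-- the recursion -/
private noncomputable def Jet9_seq (G : Bl m) (f : ℕ → ℝ → V m) (Y : ℝ → V m) (E : ℝ → ℂ) :
    ℕ → (ℝ → V m) × (ℝ → ℂ)
  | 0 => (Y, E)
  | n + 1 => (fun t => (1 / ((n : ℂ) + 1)) • ∑ i : Fin (n + 1),
        (Jet9_seq G f Y E i).2 t • f (n - i) t,
      fun t => (1 / ((n : ℂ) + 1)) * ∑ i : Fin (n + 1),
        G ((Jet9_seq G f Y E i).1 t) (f (n - i) t))
termination_by n => n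
decreasing_by all_goals omega

/-- the jet of a solution of the flat system (recursion) -/
theorem jet_sol (G : Bl m) {f : ℕ → ℝ → V m} (hf : IsJet I f) {Y : ℝ → V m} {E : ℝ → ℂ}
    (dY : ∀ t ∈ I, HasDerivAt Y (E t • f 0 t) t)
    (dE : ∀ t ∈ I, HasDerivAt E (G (Y t) (f 0 t)) t) :
    ∃ (y : ℕ → ℝ → V m) (ε : ℕ → ℝ → ℂ), IsJet I y ∧ IsJet I ε ∧ y 0 = Y ∧ ε 0 = E ∧
      (∀ n t, y (n + 1) t = (1 / ((n : ℂ) + 1)) • ∑ p ∈ antidiagonal n, ε p.1 t • f p.2 t) ∧
      ∀ n t, ε (n + 1) t = (1 / ((n : ℂ) + 1)) * ∑ p ∈ antidiagonal n, G (y p.1 t) (f p.2 t) := by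
  obtain ⟨y, hy⟩ : ∃ y : ℕ → ℝ → V m, y = fun n => (Jet9_seq G f Y E n).1 := ⟨_, rfl⟩
  obtain ⟨ε, hε⟩ : ∃ ε : ℕ → ℝ → ℂ, ε = fun n => (Jet9_seq G f Y E n).2 := ⟨_, rfl⟩
  have y0 : y 0 = Y := by rw [hy]; simp only [Jet9_seq]
  have ε0 : ε 0 = E := by rw [hε]; simp only [Jet9_seq]
  have ys : ∀ n t, y (n + 1) t = (1 / ((n : ℂ) + 1)) • ∑ p ∈ antidiagonal n, ε p.1 t • f p.2 t := by
    intro n t
    rw [Finset.Nat.sum_antidiagonal_eq_sum_range_succ_mk, Finset.sum_range, hy, hε]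
    simp only
    rw [Jet9_seq]
  have εs : ∀ n t, ε (n + 1) t = (1 / ((n : ℂ) + 1)) * ∑ p ∈ antidiagonal n, G (y p.1 t) (f p.2 t) := by
    intro n t
    rw [Finset.Nat.sum_antidiagonal_eq_sum_range_succ_mk, Finset.sum_range, hy, hε]
    simp only
    rw [Jet9_seq]
  have key : ∀ n, ∀ t ∈ I, HasDerivAt (y n) (((n : ℂ) + 1) • y (n + 1) t) t ∧
      HasDerivAt (ε n) (((n : ℂ) + 1) • ε (n + 1) t) t := by
    intro n
    induction n using Nat.strong_induction_on with
    | _ n ih =>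
      intro t ht
      rcases n with _ | n
      · rw [y0, ε0]
        constructor
        · refine (dY t ht).congr_deriv ?_
          rw [ys]
          simp [ε0]
        · refine (dE t ht).congr_deriv ?_
          rw [εs]
          simp [y0]
      · have hn : (n : ℂ) + 1 ≠ 0 := Nat.cast_add_one_ne_zero n
        have hn2 : ((n + 1 : ℕ) : ℂ) + 1 ≠ 0 := Nat.cast_add_one_ne_zero (n + 1)
        constructor
        · have h1 := Jet9_conv (n := n) (fun (k : ℂ) (v : V m) => k • v)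
            (fun k x y => by simp [mul_smul])
            (fun k x y => smul_comm _ _ _) (fun f g f' g' hf hg => hf.fun_smul hg)
            (fun i hi => (ih i (by omega) t ht).2) (fun i _ => hf i t ht)
          have h2 := h1.fun_const_smul (1 / ((n : ℂ) + 1))
          have h3 : (fun s => (1 / ((n : ℂ) + 1)) • ∑ p ∈ antidiagonal n, ε p.1 s • f p.2 s)
              = y (n + 1) := by
            funext s
            rw [ys]
          rw [h3] at h2
          refine h2.congr_deriv ?_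
          rw [ys (n + 1) t, smul_smul, smul_smul, one_div, inv_mul_cancel₀ hn, one_div,
            mul_inv_cancel₀ hn2]
        · have h1 := Jet9_conv (n := n) (fun x y : V m => G x y) (fun k x y => by simp)
            (fun k x y => by simp) (fun f g f' g' hf hg => starB_hd G hf hg)
            (fun i hi => (ih i (by omega) t ht).1) (fun i _ => hf i t ht)
          have h2 := h1.fun_const_smul (1 / ((n : ℂ) + 1))
          have h3 : (fun s => (1 / ((n : ℂ) + 1)) • ∑ p ∈ antidiagonal n, G (y p.1 s) (f p.2 s))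
              = ε (n + 1) := by
            funext s
            rw [εs, smul_eq_mul]
          rw [h3] at h2
          refine h2.congr_deriv ?_
          rw [εs (n + 1) t, ← smul_eq_mul (1 / _) (Finset.sum _ _), smul_smul, smul_smul, one_div,
            inv_mul_cancel₀ hn, one_div, mul_inv_cancel₀ hn2]
  exact ⟨y, ε, fun n t ht => (key n t ht).1, fun n t ht => (key n t ht).2, y0, ε0, ys, εs⟩

variable {S : Type*} [TopologicalSpace S] {M : Surface S} {σ : ℝ} {e : Fin m → S → ℝ}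
  {G : Bl m}

/-- the jet of the vector of the gradients along the real axis (hasDerivAt_Fv_real) -/
theorem jet_Fv (he : ∀ i, M.IsSteklov σ (e i)) {φ : Chart S} (hφ : φ ∈ M.charts)
    (hI : ∀ t ∈ I, (t : ℂ) ∈ φ.map.target) :
    IsJet I fun n (t : ℝ) => ((n.factorial : ℂ)⁻¹) • Fv φ e n (t : ℂ) := by
  intro n t ht
  have h1 := (hasDerivAt_Fv_real he hφ n (hI t ht)).fun_const_smul ((n.factorial : ℂ)⁻¹)
  refine h1.congr_deriv ?_
  rw [smul_smul]
  congr 1
  have h2 : ((n.factorial : ℕ) : ℂ) ≠ 0 := Nat.cast_ne_zero.2 n.factorial_ne_zero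
  have h3 : (n : ℂ) + 1 ≠ 0 := Nat.cast_add_one_ne_zero n
  rw [Nat.factorial_succ]
  push_cast
  field_simp

end Stek.Sv
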